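import Pool.Agent.helper9.SV.GraphC

/-!
# From good multisets to edge labellings of 2-regular graphs, part 4

The reduction theorem.
-/

namespace Pool.Agent.helper9.SV

open SimpleGraph

theorem CycDec.sum {V W : Type*} [DecidableEq V] [DecidableEq W] {G : SimpleGraph V}
    {H : SimpleGraph W} {ds : List (List V)} {es : List (List W)} (h : CycDec G ds)
    (h' : CycDec H es) :
    CycDec (G ⊕g H) (ds.map (List.map Sum.inl) ++ es.map (List.map Sum.inr)) := by
  refine ⟨?_, ?_, ?_, ?_⟩
  · rw [List.flatten_append, ← List.map_flatten, ← List.map_flatten]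
    apply List.Nodup.append (h.nodup.map Sum.inl_injective) (h'.nodup.map Sum.inr_injective)
    intro x hx hx'
    obtain ⟨v, -, rfl⟩ := List.mem_map.1 hx
    obtain ⟨w, -, hw⟩ := List.mem_map.1 hx'
    exact absurd hw (by simp)
  · rw [List.flatten_append, ← List.map_flatten, ← List.map_flatten]
    rintro (v | w)
    · exact List.mem_append_left _ (List.mem_map_of_mem (h.mem v))
    · exact List.mem_append_right _ (List.mem_map_of_mem (h'.mem w))
  · intro d hd
    rcases List.mem_append.1 hd with hm | hm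
    · obtain ⟨d, hd0, rfl⟩ := List.mem_map.1 hm
      simpa using h.len d hd0
    · obtain ⟨d, hd0, rfl⟩ := List.mem_map.1 hm
      simpa using h'.len d hd0
  · intro d hd
    rcases List.mem_append.1 hd with hm | hm
    · obtain ⟨d, hd0, rfl⟩ := List.mem_map.1 hm
      intro v hv
      obtain ⟨v, hv0, rfl⟩ := List.mem_map.1 hv
      rw [formPerm_map Sum.inl Sum.inl_injective (h.nodup_of_mem hd0)]
      rintro (w | w)
      · rw [formPerm_map Sum.inl Sum.inl_injective (h.nodup_of_mem hd0)]
        simpa using h.adj d hd0 v hv0 w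
      · have hn : (Sum.inr w : V ⊕ W) ∉ d.map Sum.inl := by simp
        rw [List.formPerm_apply_of_notMem hn]
        simp
    · obtain ⟨d, hd0, rfl⟩ := List.mem_map.1 hm
      intro v hv
      obtain ⟨v, hv0, rfl⟩ := List.mem_map.1 hv
      rw [formPerm_map Sum.inr Sum.inr_injective (h'.nodup_of_mem hd0)]
      rintro (w | w)
      · have hn : (Sum.inl w : V ⊕ W) ∉ d.map Sum.inr := by simp
        rw [List.formPerm_apply_of_notMem hn]
        simp
      · rw [formPerm_map Sum.inr Sum.inr_injective (h'.nodup_of_mem hd0)]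
        simpa using h'.adj d hd0 v hv0 w

theorem cycDec3 : CycDec (cycleGraph 3) [[0, 1, 2]] := by
  refine ⟨by decide, by decide, by decide, by decide⟩

theorem cycDec4 : CycDec (cycleGraph 4) [[0, 1, 2, 3]] := by
  refine ⟨by decide, by decide, by decide, by decide⟩

theorem cycDec5 : CycDec (cycleGraph 5) [[0, 1, 2, 3, 4]] := by
  refine ⟨by decide, by decide, by decide, by decide⟩

/-- the statement of the problem follows from the goodness of all multisets of lengths -/
theorem magic_of_good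
    (H : ∀ mu : Multiset ℕ, (∀ k ∈ mu, 3 ≤ k) → Odd mu.sum → mu ≠ {3, 4} → mu ≠ {3, 3, 3, 4} →
      mu ≠ {3, 3, 5} → Good mu)
    (V : Type) [Fintype V] [DecidableEq V] (G : SimpleGraph V) [DecidableRel G.Adj]
    (hG : G.IsRegularOfDegree 2) (hodd : Odd (Fintype.card V))
    (h1 : IsEmpty (G ≃g (cycleGraph 3 ⊕g cycleGraph 4)))
    (h2 : IsEmpty (G ≃g (((cycleGraph 3 ⊕g cycleGraph 3) ⊕g cycleGraph 3) ⊕g cycleGraph 4)))
    (h3 : IsEmpty (G ≃g ((cycleGraph 3 ⊕g cycleGraph 3) ⊕g cycleGraph 5))) :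
    ∃ f : V ⊕ G.edgeSet → ℕ, Function.Injective f ∧
      (∀ x, 1 ≤ f x ∧ f x ≤ Fintype.card V + Fintype.card G.edgeSet) ∧
      (∀ v : V, Fintype.card G.edgeSet < f (Sum.inl v)) ∧
      ∃ k : ℕ, ∀ x : V,
        f (Sum.inl x) + ∑ e ∈ Finset.univ.filter (fun e : G.edgeSet => x ∈ (e : Sym2 V)),
          f (Sum.inr e) = k := by
  obtain ⟨ds, hds⟩ := exists_cycDec hG
  apply exists_magic hds
  have : Inhabited (Fin 3 ⊕ Fin 4) := ⟨Sum.inl 0⟩
  have : Inhabited (((Fin 3 ⊕ Fin 3) ⊕ Fin 3) ⊕ Fin 4) := ⟨Sum.inr 0⟩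
  have : Inhabited ((Fin 3 ⊕ Fin 3) ⊕ Fin 5) := ⟨Sum.inr 0⟩
  apply H
  · intro k hk
    rw [Multiset.mem_coe] at hk
    obtain ⟨d, hd, rfl⟩ := List.mem_map.1 hk
    exact hds.len d hd
  · have h4 : ds.flatten.toFinset = Finset.univ := by
      ext v
      simp [hds.mem v, -List.mem_flatten]
    have h5 := List.toFinset_card_of_nodup hds.nodup
    rw [h4, Finset.card_univ, List.length_flatten] at h5
    rw [Multiset.sum_coe, ← h5]
    exact hodd
  · intro h
    apply h1.false (Classical.choice (hds.iso (cycDec3.sum cycDec4) _))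
    rw [h]
    decide
  · intro h
    apply h2.false (Classical.choice (hds.iso (((cycDec3.sum cycDec3).sum cycDec3).sum cycDec4) _))
    rw [h]
    decide
  · intro h
    apply h3.false (Classical.choice (hds.iso ((cycDec3.sum cycDec3).sum cycDec5) _))
    rw [h]
    decide

end Pool.Agent.helper9.SV
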