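import Pool.Agent.helper9.SV.Cores

/-!
# Explicit labellings of small 2-regular graphs
-/

namespace Pool.Agent.helper9.SV

theorem good_3_6 : Good ({3, 6} : Multiset ℕ) :=
  good_of_ok (h := 4) (mu := [3, 6]) [
    [-2, 1, 3], [-4, 4, -1, -3, 0, 2]] (by decide +kernel)

theorem good_5_6 : Good ({5, 6} : Multiset ℕ) :=
  good_of_ok (h := 5) (mu := [5, 6]) [
    [5, -1, -4, 0, -3], [2, 1, 4, -5, 3, -2]] (by decide +kernel)

theorem good_11 : Good ({11} : Multiset ℕ) :=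
  good_of_ok (h := 5) (mu := [11]) [
    [2, -5, 5, -4, 3, -1, -3, -2, 0, 4, 1]] (by decide +kernel)

theorem good_4_4_5 : Good ({4, 4, 5} : Multiset ℕ) :=
  good_of_ok (h := 6) (mu := [4, 4, 5]) [
    [-6, 0, -5, 2], [-1, 6, -2, 4], [3, -4, 5, 1, -3]] (by decide +kernel)

theorem good_3_3_3_6 : Good ({3, 3, 3, 6} : Multiset ℕ) :=
  good_of_ok (h := 7) (mu := [3, 3, 3, 6]) [
    [1, 5, -7], [3, -2, 4], [-3, 7, -4], [2, -6, 6, -1, 0, -5]] (by decide +kernel)

theorem good_3_3_3_8 : Good ({3, 3, 3, 8} : Multiset ℕ) :=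
  good_of_ok (h := 8) (mu := [3, 3, 3, 8]) [
    [-4, -3, 8], [3, 4, -2], [7, -1, -7], [-8, 6, 2, 1, -5, 0, -6, 5]] (by decide +kernel)

theorem good_3_4_4_6 : Good ({3, 4, 4, 6} : Multiset ℕ) :=
  good_of_ok (h := 8) (mu := [3, 4, 4, 6]) [
    [-2, -4, 4], [-3, 8, -1, 7], [1, 2, 6, -5], [-8, 0, -7, 5, -6, 3]] (by decide +kernel)

theorem good_3_4_5_5 : Good ({3, 4, 5, 5} : Multiset ℕ) :=
  good_of_ok (h := 8) (mu := [3, 4, 5, 5]) [
    [-4, -1, 4], [-6, 3, -7, 5], [0, 1, 6, 2, -8], [-5, 7, -3, 8, -2]] (by decide +kernel)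

theorem good_3_4_10 : Good ({3, 4, 10} : Multiset ℕ) :=
  good_of_ok (h := 8) (mu := [3, 4, 10]) [
    [-5, 8, -2], [4, -3, 5, -6], [-8, 2, 6, -1, -7, 7, 0, -4, 1, 3]] (by decide +kernel)

theorem good_3_5_9 : Good ({3, 5, 9} : Multiset ℕ) :=
  good_of_ok (h := 8) (mu := [3, 5, 9]) [
    [-5, 7, -3], [4, 1, -8, 3, -7], [0, -1, 8, -2, 5, -4, 2, 6, -6]] (by decide +kernel)

theorem good_3_7_7 : Good ({3, 7, 7} : Multiset ℕ) :=
  good_of_ok (h := 8) (mu := [3, 7, 7]) [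
    [-2, 1, -4], [-5, 8, -3, 5, 3, -8, 6], [7, 0, 4, 2, -6, -1, -7]] (by decide +kernel)

theorem good_4_4_4_5 : Good ({4, 4, 4, 5} : Multiset ℕ) :=
  good_of_ok (h := 8) (mu := [4, 4, 4, 5]) [
    [-5, 7, -4, 5], [-3, -2, 8, -1], [1, 4, -6, 3], [0, -8, 2, 6, -7]] (by decide +kernel)

theorem good_4_6_7 : Good ({4, 6, 7} : Multiset ℕ) :=
  good_of_ok (h := 8) (mu := [4, 6, 7]) [
    [7, -8, 8, -4], [4, 3, -1, -6, -2, -3], [6, 2, -5, 1, -7, 5, 0]] (by decide +kernel)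

theorem good_5_5_7 : Good ({5, 5, 7} : Multiset ℕ) :=
  good_of_ok (h := 8) (mu := [5, 5, 7]) [
    [-6, 5, -3, -2, 3], [1, 4, 2, 6, -8], [-4, 8, -5, -1, -7, 7, 0]] (by decide +kernel)

theorem good_4_5_5_5 : Good ({4, 5, 5, 5} : Multiset ℕ) :=
  good_of_ok (h := 9) (mu := [4, 5, 5, 5]) [
    [5, -6, 2, 4], [-2, 6, -9, 3, 0], [8, -1, -4, -5, -3], [-8, 1, 7, -7, 9]] (by decide +kernel)

theorem good_3_3_3_5_7 : Good ({3, 3, 3, 5, 7} : Multiset ℕ) :=
  good_of_ok (h := 10) (mu := [3, 3, 3, 5, 7]) [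
    [-8, 6, -2], [2, 7, -10], [-9, 3, 5], [0, -7, 9, -4, 10], [1, -6, -3, 4, -5, 8, -1]] (by decide +kernel)

theorem good_3_5_5_5_5 : Good ({3, 5, 5, 5, 5} : Multiset ℕ) :=
  good_of_ok (h := 11) (mu := [3, 5, 5, 5, 5]) [
    [-11, 2, 4], [-3, -7, 11, -1, -5], [9, -6, 5, -4, 0], [8, 3, -8, 10, -10], [-9, -2, 7, 1, 6]] (by decide +kernel)

theorem good_4_5x5 : Good ({4, 5, 5, 5, 5, 5} : Multiset ℕ) :=
  good_of_ok (h := 14) (mu := [4, 5, 5, 5, 5, 5]) [
    [10, -13, 0, -10], [14, -4, -7, 11, -12], [-14, 7, 5, 6, 8], [-8, 13, -6, -2, 3],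
    [9, -1, -11, 2, 4], [-3, 12, -9, -5, 1]] (by decide +kernel)

theorem good_3_4x7 : Good ({3, 4, 4, 4, 4, 4, 4, 4} : Multiset ℕ) :=
  good_of_ok (h := 15) (mu := [3, 4, 4, 4, 4, 4, 4, 4]) [
    [-10, -2, 14], [6, -15, 8, -14], [-1, 12, -12, 7], [-13, 2, 13, 0], [-11, 9, 1, -4],
    [3, 5, -3, -7], [15, -6, 11, -8], [4, -5, -9, 10]] (by decide +kernel)

theorem good_3_5x6 : Good ({3, 5, 5, 5, 5, 5, 5} : Multiset ℕ) :=
  good_of_ok (h := 16) (mu := [3, 5, 5, 5, 5, 5, 5]) [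
    [3, 10, -16], [14, -5, 13, -1, -13], [7, -15, 4, 11, -11], [-12, 15, -9, 2, -3],
    [-6, 1, -10, 0, 16], [-2, 9, -7, 12, -14], [8, 6, 5, -8, -4]] (by decide +kernel)

theorem good_5x9 : Good ({5, 5, 5, 5, 5, 5, 5, 5, 5} : Multiset ℕ) :=
  good_of_ok (h := 22) (mu := [5, 5, 5, 5, 5, 5, 5, 5, 5]) [
    [13, -20, 19, -18, 7], [10, 9, -19, 11, 2], [12, -9, 18, -2, -16], [-8, -12, 14, -14, -5],
    [4, 17, -10, 1, -7], [15, -17, -4, 22, 0], [8, -13, 21, -15, 3], [5, -22, 6, -21, -1],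
    [-11, 16, -6, 20, -3]] (by decide +kernel)

theorem good_3_5x10 : Good ({3, 5, 5, 5, 5, 5, 5, 5, 5, 5, 5} : Multiset ℕ) :=
  good_of_ok (h := 26) (mu := [3, 5, 5, 5, 5, 5, 5, 5, 5, 5, 5]) [
    [8, -26, 1], [-15, 7, 19, -17, -4], [17, -2, 5, 18, -20], [12, -21, 22, 3, -25],
    [10, 6, 14, -19, 9], [2, 16, -22, -1, -6], [-23, 23, -24, 13, 11], [25, -3, -14, 21, -11],
    [-8, -18, 4, 0, -16], [24, -13, -7, 20, -12], [15, -9, 26, -5, -10]] (by decide +kernel)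

/-! ## one odd cycle -/

theorem zipWith_map_range (f g : ℕ → ℤ) (n : ℕ) :
    List.zipWith (· + ·) ((List.range n).map f) ((List.range n).map g) =
      (List.range n).map fun i => f i + g i := by
  rw [List.zipWith_map, List.zipWith_self]

theorem cycSums_map_range (f : ℕ → ℤ) (n : ℕ) :
    cycSums ((List.range (n + 1)).map f) =
      ((List.range n).map fun i => f i + f (i + 1)) ++ [f n + f 0] := by
  have h1 : (List.range (n + 1)).map f = f 0 :: (List.range n).map fun i => f (i + 1) := by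
    rw [List.range_succ_eq_map, List.map_cons, List.map_map]
    rfl
  have h2 : f 0 :: ((List.range n).map fun i => f (i + 1)) = (List.range n).map f ++ [f n] := by
    rw [← h1, List.range_succ, List.map_append]
    rfl
  rw [h1]
  show List.zipWith (· + ·) (f 0 :: ((List.range n).map fun i => f (i + 1)))
    (((List.range n).map fun i => f (i + 1)) ++ [f 0]) = _
  rw [h2, List.zipWith_append (by simp), zipWith_map_range]
  rfl

/-- the zigzag labelling of an odd cycle -/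
def zig (h : ℕ) (i : ℕ) : ℤ := if i % 2 = 0 then -((i / 2 : ℕ) : ℤ) else (h : ℤ) - ((i / 2 : ℕ) : ℤ)

theorem good_odd_cycle (n : ℕ) (hn : n % 2 = 1) : Good {n} := by
  obtain ⟨h, rfl⟩ : ∃ h, n = 2 * h + 1 := ⟨n / 2, by omega⟩
  refine ⟨h, by simp, [(List.range (2 * h + 1)).map (zig h)], ?_, ?_, ?_⟩
  · simp
  · rw [List.flatten_cons, List.flatten_nil, List.append_nil]
    apply eq_Icc_of_surj (by simp)
    intro y h1 h2
    rw [List.mem_map]
    rcases le_or_gt y 0 with h3 | h3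
    · refine ⟨(-2 * y).toNat, ?_, ?_⟩
      · rw [List.mem_range]
        omega
      · unfold zig
        rw [if_pos (by omega)]
        omega
    · refine ⟨(2 * (h - y) + 1).toNat, ?_, ?_⟩
      · rw [List.mem_range]
        omega
      · unfold zig
        rw [if_neg (by omega)]
        omega
  · rw [List.map_cons, List.map_nil, List.flatten_cons, List.flatten_nil, List.append_nil,
      cycSums_map_range]
    apply eq_Icc_of_surj (by simp)
    intro y h1 h2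
    rw [List.mem_append, List.mem_map]
    rcases eq_or_lt_of_le h1 with h3 | h3
    · right
      rw [List.mem_singleton, ← h3]
      unfold zig
      rw [if_pos (by omega), if_pos (by omega)]
      omega
    · left
      refine ⟨(h - y).toNat, ?_, ?_⟩
      · rw [List.mem_range]
        omega
      · unfold zig
        rcases Nat.even_or_odd' (h - y).toNat with ⟨k, hk | hk⟩
        · rw [if_pos (by omega), if_neg (by omega)]
          omega
        · rw [if_neg (by omega), if_pos (by omega)]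
          omega

end Pool.Agent.helper9.SV
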