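import Pool.Agent.helper9.SV.Base

/-!
# The families `a C_3 ∪ M` for `M = C_4, C_5, 2 C_4, C_4 ∪ C_5, C_4 ∪ C_7`
-/

namespace Pool.Agent.helper9.SV

theorem b5_0 : Good (Multiset.replicate 0 3 + {5}) :=
  good_of_ok (h := 2) (mu := List.replicate 0 3 ++ [5]) [[-2, 0, 2, -1, 1]] (by decide +kernel)

theorem fam4 (a : ℕ) (ha : a % 2 = 1) (h5 : 5 ≤ a) :
    Good (Multiset.replicate a 3 + {4}) := by
  obtain ⟨u, rfl⟩ : ∃ u, a = 2 * u + 1 := ⟨a / 2, by omega⟩
  rcases le_or_gt u 17 with hu | hu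
  · have hu2 : 2 ≤ u := by omega
    interval_cases u
    · exact b4_5
    · exact b4_7
    · exact b4_9
    · exact b4_11
    · exact b4_13
    · exact b4_15
    · exact b4_17
    · exact b4_19
    · exact b4_21
    · exact b4_23
    · exact core4e tri39
    · exact b4_27
    · exact core4o tri45
    · exact core4e tri48
    · exact core4e tri51
    · exact core4o tri54
  · have hc : 2 * (u - 1) + 3 = 2 * u + 1 := by omega
    rw [← hc]
    by_cases h20 : u = 20
    · subst h20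
      exact core4e tri63
    by_cases h24 : u = 24
    · subst h24
      exact core4e tri75
    by_cases h28 : u = 28
    · subst h28
      exact core4e tri87
    have hr : u % 4 = 0 ∨ u % 4 = 1 ∨ u % 4 = 2 ∨ u % 4 = 3 := by omega
    rcases hr with hr | hr | hr | hr
    · refine core4e (pat3.sound pat3_ok (s := u / 4) (h := 3 * u + 3) ?_ ?_ ?_)
      · show (8 : ℤ) ≤ ((u / 4 : ℕ) : ℤ)
        omega
      · show ((3 * u + 3 : ℕ) : ℤ) = 12 * ((u / 4 : ℕ) : ℤ) + 3
        omega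
      · show 6 + 3 * (u - 1) = 3 * u + 3
        omega
    · refine core4o (pat6.sound pat6_ok (s := u / 4) (h := 3 * u + 3) ?_ ?_ ?_)
      · show (5 : ℤ) ≤ ((u / 4 : ℕ) : ℤ)
        omega
      · show ((3 * u + 3 : ℕ) : ℤ) = 12 * ((u / 4 : ℕ) : ℤ) + 6
        omega
      · show 6 + 3 * (u - 1) = 3 * u + 3
        omega
    · refine core4o (pat9.sound pat9_ok (s := u / 4) (h := 3 * u + 3) ?_ ?_ ?_)
      · show (4 : ℤ) ≤ ((u / 4 : ℕ) : ℤ)
        omega
      · show ((3 * u + 3 : ℕ) : ℤ) = 12 * ((u / 4 : ℕ) : ℤ) + 9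
        omega
      · show 6 + 3 * (u - 1) = 3 * u + 3
        omega
    · refine core4e (pat0.sound pat0_ok (s := u / 4 + 1) (h := 3 * u + 3) ?_ ?_ ?_)
      · show (5 : ℤ) ≤ ((u / 4 + 1 : ℕ) : ℤ)
        omega
      · show ((3 * u + 3 : ℕ) : ℤ) = 12 * ((u / 4 + 1 : ℕ) : ℤ) + 0
        omega
      · show 6 + 3 * (u - 1) = 3 * u + 3
        omega

theorem fam5 (a : ℕ) (ha : a % 2 = 0) (h2 : a ≠ 2) :
    Good (Multiset.replicate a 3 + {5}) := by
  obtain ⟨u, rfl⟩ : ∃ u, a = 2 * u := ⟨a / 2, by omega⟩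
  rcases le_or_gt u 17 with hu | hu
  · interval_cases u
    · exact b5_0
    · exact absurd rfl h2
    · exact b5_4
    · exact b5_6
    · exact b5_8
    · exact b5_10
    · exact b5_12
    · exact b5_14
    · exact b5_16
    · exact b5_18
    · exact b5_20
    · exact b5_22
    · exact core5o tri38
    · exact core5o tri41
    · exact core5e tri44
    · exact core5e tri47
    · exact core5o tri50
    · exact core5o tri53
  · have hc : 2 * (u - 1) + 2 = 2 * u := by omega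
    rw [← hc]
    have hr : u % 4 = 0 ∨ u % 4 = 1 ∨ u % 4 = 2 ∨ u % 4 = 3 := by omega
    rcases hr with hr | hr | hr | hr
    · refine core5o (pat2.sound pat2_ok (s := u / 4) (h := 3 * u + 2) ?_ ?_ ?_)
      · show (5 : ℤ) ≤ ((u / 4 : ℕ) : ℤ)
        omega
      · show ((3 * u + 2 : ℕ) : ℤ) = 12 * ((u / 4 : ℕ) : ℤ) + 2
        omega
      · show 5 + 3 * (u - 1) = 3 * u + 2
        omega
    · refine core5o (pat5.sound pat5_ok (s := u / 4) (h := 3 * u + 2) ?_ ?_ ?_)
      · show (5 : ℤ) ≤ ((u / 4 : ℕ) : ℤ)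
        omega
      · show ((3 * u + 2 : ℕ) : ℤ) = 12 * ((u / 4 : ℕ) : ℤ) + 5
        omega
      · show 5 + 3 * (u - 1) = 3 * u + 2
        omega
    · refine core5e (pat8.sound pat8_ok (s := u / 4) (h := 3 * u + 2) ?_ ?_ ?_)
      · show (4 : ℤ) ≤ ((u / 4 : ℕ) : ℤ)
        omega
      · show ((3 * u + 2 : ℕ) : ℤ) = 12 * ((u / 4 : ℕ) : ℤ) + 8
        omega
      · show 5 + 3 * (u - 1) = 3 * u + 2
        omega
    · refine core5e (pat11.sound pat11_ok (s := u / 4) (h := 3 * u + 2) ?_ ?_ ?_)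
      · show (4 : ℤ) ≤ ((u / 4 : ℕ) : ℤ)
        omega
      · show ((3 * u + 2 : ℕ) : ℤ) = 12 * ((u / 4 : ℕ) : ℤ) + 11
        omega
      · show 5 + 3 * (u - 1) = 3 * u + 2
        omega

theorem fam44 (a : ℕ) (ha : a % 2 = 1) :
    Good (Multiset.replicate a 3 + {4, 4}) := by
  obtain ⟨u, rfl⟩ : ∃ u, a = 2 * u + 1 := ⟨a / 2, by omega⟩
  rcases le_or_gt u 16 with hu | hu
  · interval_cases u
    · exact b44_1
    · exact b44_3
    · exact b44_5
    · exact b44_7
    · exact b44_9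
    · exact b44_11
    · exact b44_13
    · exact b44_15
    · exact b44_17
    · exact b44_19
    · exact b44_21
    · exact core44o tri38
    · exact core44o tri41
    · exact core44e tri44
    · exact core44e tri47
    · exact core44o tri50
    · exact core44o tri53
  · have hc : 2 * u + 1 = 2 * u + 1 := by omega
    rw [← hc]
    have hr : u % 4 = 0 ∨ u % 4 = 1 ∨ u % 4 = 2 ∨ u % 4 = 3 := by omega
    rcases hr with hr | hr | hr | hr
    · refine core44o (pat5.sound pat5_ok (s := u / 4) (h := 3 * u + 5) ?_ ?_ ?_)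
      · show (5 : ℤ) ≤ ((u / 4 : ℕ) : ℤ)
        omega
      · show ((3 * u + 5 : ℕ) : ℤ) = 12 * ((u / 4 : ℕ) : ℤ) + 5
        omega
      · show 5 + 3 * u = 3 * u + 5
        omega
    · refine core44e (pat8.sound pat8_ok (s := u / 4) (h := 3 * u + 5) ?_ ?_ ?_)
      · show (4 : ℤ) ≤ ((u / 4 : ℕ) : ℤ)
        omega
      · show ((3 * u + 5 : ℕ) : ℤ) = 12 * ((u / 4 : ℕ) : ℤ) + 8
        omega
      · show 5 + 3 * u = 3 * u + 5
        omega
    · refine core44e (pat11.sound pat11_ok (s := u / 4) (h := 3 * u + 5) ?_ ?_ ?_)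
      · show (4 : ℤ) ≤ ((u / 4 : ℕ) : ℤ)
        omega
      · show ((3 * u + 5 : ℕ) : ℤ) = 12 * ((u / 4 : ℕ) : ℤ) + 11
        omega
      · show 5 + 3 * u = 3 * u + 5
        omega
    · refine core44o (pat2.sound pat2_ok (s := u / 4 + 1) (h := 3 * u + 5) ?_ ?_ ?_)
      · show (5 : ℤ) ≤ ((u / 4 + 1 : ℕ) : ℤ)
        omega
      · show ((3 * u + 5 : ℕ) : ℤ) = 12 * ((u / 4 + 1 : ℕ) : ℤ) + 2
        omega
      · show 5 + 3 * u = 3 * u + 5
        omega

theorem fam45 (a : ℕ) (ha : a % 2 = 0) :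
    Good (Multiset.replicate a 3 + {4, 5}) := by
  obtain ⟨u, rfl⟩ : ∃ u, a = 2 * u := ⟨a / 2, by omega⟩
  rcases le_or_gt u 12 with hu | hu
  · interval_cases u
    · exact b45_0
    · exact b45_2
    · exact b45_4
    · exact b45_6
    · exact b45_8
    · exact b45_10
    · exact b45_12
    · exact b45_14
    · exact b45_16
    · exact core45e tri31
    · exact core45o tri34
    · exact core45o tri37
    · exact core45e tri40
  · have hc : 2 * u + 0 = 2 * u := by omega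
    rw [← hc]
    by_cases h14 : u = 14
    · subst h14
      exact core45o tri46
    have hr : u % 4 = 0 ∨ u % 4 = 1 ∨ u % 4 = 2 ∨ u % 4 = 3 := by omega
    rcases hr with hr | hr | hr | hr
    · refine core45e (pat4.sound pat4_ok (s := u / 4) (h := 3 * u + 4) ?_ ?_ ?_)
      · show (4 : ℤ) ≤ ((u / 4 : ℕ) : ℤ)
        omega
      · show ((3 * u + 4 : ℕ) : ℤ) = 12 * ((u / 4 : ℕ) : ℤ) + 4
        omega
      · show 4 + 3 * u = 3 * u + 4
        omega
    · refine core45e (pat7.sound pat7_ok (s := u / 4) (h := 3 * u + 4) ?_ ?_ ?_)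
      · show (3 : ℤ) ≤ ((u / 4 : ℕ) : ℤ)
        omega
      · show ((3 * u + 4 : ℕ) : ℤ) = 12 * ((u / 4 : ℕ) : ℤ) + 7
        omega
      · show 4 + 3 * u = 3 * u + 4
        omega
    · refine core45o (pat10.sound pat10_ok (s := u / 4) (h := 3 * u + 4) ?_ ?_ ?_)
      · show (4 : ℤ) ≤ ((u / 4 : ℕ) : ℤ)
        omega
      · show ((3 * u + 4 : ℕ) : ℤ) = 12 * ((u / 4 : ℕ) : ℤ) + 10
        omega
      · show 4 + 3 * u = 3 * u + 4
        omega
    · refine core45o (pat1.sound pat1_ok (s := u / 4 + 1) (h := 3 * u + 4) ?_ ?_ ?_)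
      · show (4 : ℤ) ≤ ((u / 4 + 1 : ℕ) : ℤ)
        omega
      · show ((3 * u + 4 : ℕ) : ℤ) = 12 * ((u / 4 + 1 : ℕ) : ℤ) + 1
        omega
      · show 4 + 3 * u = 3 * u + 4
        omega

theorem fam47 (a : ℕ) (ha : a % 2 = 0) :
    Good (Multiset.replicate a 3 + {4, 7}) := by
  obtain ⟨u, rfl⟩ : ∃ u, a = 2 * u := ⟨a / 2, by omega⟩
  rcases le_or_gt u 16 with hu | hu
  · interval_cases u
    · exact b47_0
    · exact b47_2
    · exact b47_4
    · exact b47_6
    · exact b47_8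
    · exact b47_10
    · exact b47_12
    · exact b47_14
    · exact b47_16
    · exact b47_18
    · exact b47_20
    · exact core47o tri38
    · exact core47o tri41
    · exact core47e tri44
    · exact core47e tri47
    · exact core47o tri50
    · exact core47o tri53
  · have hc : 2 * u + 0 = 2 * u := by omega
    rw [← hc]
    have hr : u % 4 = 0 ∨ u % 4 = 1 ∨ u % 4 = 2 ∨ u % 4 = 3 := by omega
    rcases hr with hr | hr | hr | hr
    · refine core47o (pat5.sound pat5_ok (s := u / 4) (h := 3 * u + 5) ?_ ?_ ?_)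
      · show (5 : ℤ) ≤ ((u / 4 : ℕ) : ℤ)
        omega
      · show ((3 * u + 5 : ℕ) : ℤ) = 12 * ((u / 4 : ℕ) : ℤ) + 5
        omega
      · show 5 + 3 * u = 3 * u + 5
        omega
    · refine core47e (pat8.sound pat8_ok (s := u / 4) (h := 3 * u + 5) ?_ ?_ ?_)
      · show (4 : ℤ) ≤ ((u / 4 : ℕ) : ℤ)
        omega
      · show ((3 * u + 5 : ℕ) : ℤ) = 12 * ((u / 4 : ℕ) : ℤ) + 8
        omega
      · show 5 + 3 * u = 3 * u + 5
        omega
    · refine core47e (pat11.sound pat11_ok (s := u / 4) (h := 3 * u + 5) ?_ ?_ ?_)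
      · show (4 : ℤ) ≤ ((u / 4 : ℕ) : ℤ)
        omega
      · show ((3 * u + 5 : ℕ) : ℤ) = 12 * ((u / 4 : ℕ) : ℤ) + 11
        omega
      · show 5 + 3 * u = 3 * u + 5
        omega
    · refine core47o (pat2.sound pat2_ok (s := u / 4 + 1) (h := 3 * u + 5) ?_ ?_ ?_)
      · show (5 : ℤ) ≤ ((u / 4 + 1 : ℕ) : ℤ)
        omega
      · show ((3 * u + 5 : ℕ) : ℤ) = 12 * ((u / 4 + 1 : ℕ) : ℤ) + 2
        omega
      · show 5 + 3 * u = 3 * u + 5
        omega

end Pool.Agent.helper9.SV
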