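import Pool.Agent.helper9.SV.Cores

/-!
# Explicit labellings and partitions for small orders
-/

namespace Pool.Agent.helper9.SV

theorem b4_5 : Good (Multiset.replicate 5 3 + {4}) :=
  good_of_ok (h := 9) (mu := List.replicate 5 3 ++ [4]) [
    [-9, 0, 6], [-5, -3, 7], [-6, -1, 9], [-7, 2, 5], [-4, -2, 3], [-8, 8, 1, 4]] (by decide +kernel)

theorem b4_7 : Good (Multiset.replicate 7 3 + {4}) :=
  good_of_ok (h := 12) (mu := List.replicate 7 3 ++ [4]) [
    [-6, -5, 11], [-10, 2, 9], [-11, 1, 6], [-9, 3, 5], [-8, -1, 10], [-7, 4, 8], [-4, -3, 7],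
    [-12, 0, -2, 12]] (by decide +kernel)

theorem b4_9 : Good (Multiset.replicate 9 3 + {4}) :=
  good_of_ok (h := 15) (mu := List.replicate 9 3 ++ [4]) [
    [-15, 0, 14], [-9, 4, 11], [-11, 1, 12], [-12, -1, 10], [-8, -6, 13], [-10, -2, 6],
    [-7, -4, 15], [-3, 3, 9], [-5, 2, 8], [7, -14, 5, -13]] (by decide +kernel)

theorem b4_11 : Good (Multiset.replicate 11 3 + {4}) :=
  good_of_ok (h := 18) (mu := List.replicate 11 3 ++ [4]) [
    [-18, 8, 9], [-16, 3, 12], [-17, -1, 15], [-15, 0, 16], [-14, 6, 7], [-6, 1, 5],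
    [-10, 4, 14], [-12, -5, 17], [-11, -3, 13], [-8, -4, 11], [-9, -7, 18], [-2, 2, -13, 10]] (by decide +kernel)

theorem b4_13 : Good (Multiset.replicate 13 3 + {4}) :=
  good_of_ok (h := 21) (mu := List.replicate 13 3 ++ [4]) [
    [-21, 0, 18], [-16, 9, 12], [-18, 1, 19], [-20, 6, 8], [-19, 3, 13], [-17, -3, 20],
    [-14, 5, 14], [-5, 4, 7], [-13, -6, 21], [-7, -1, 11], [-10, -8, 17], [-11, -4, 16],
    [-9, -2, 15], [10, -12, 2, -15]] (by decide +kernel)

theorem b4_15 : Good (Multiset.replicate 15 3 + {4}) :=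
  good_of_ok (h := 24) (mu := List.replicate 15 3 ++ [4]) [
    [-24, 8, 9], [-23, 2, 22], [-19, 10, 13], [-22, -1, 23], [-21, 4, 17], [-20, 6, 7],
    [-18, -4, 24], [-14, 3, 16], [-8, 0, 11], [-6, 1, 14], [-17, -3, 15], [-16, -2, 20],
    [-7, -5, 21], [-13, -11, 18], [-10, -9, 19], [5, -15, 12, -12]] (by decide +kernel)

theorem b4_17 : Good (Multiset.replicate 17 3 + {4}) :=
  good_of_ok (h := 27) (mu := List.replicate 17 3 ++ [4]) [
    [-27, 6, 20], [-24, 2, 25], [-26, 10, 15], [-17, -3, 27], [-23, 0, 23], [-19, 7, 11],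
    [-21, -4, 26], [-20, 3, 17], [-15, 5, 14], [-22, 8, 13], [-8, 4, 12], [-11, -2, 9],
    [-14, -1, 16], [-13, -5, 22], [-12, -7, 18], [-16, -10, 24], [-18, -9, 21], [19, -6, 1, -25]] (by decide +kernel)

theorem b4_19 : Good (Multiset.replicate 19 3 + {4}) :=
  good_of_ok (h := 30) (mu := List.replicate 19 3 ++ [4]) [
    [-24, -6, 24], [-18, -4, 30], [-25, -2, 29], [-16, -13, 22], [-14, -12, 27], [-27, 2, 28],
    [-17, -11, 25], [-30, 6, 23], [-7, -5, 12], [-15, -3, 14], [-8, -1, 11], [-19, 3, 21],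
    [-23, 0, 19], [-22, 1, 20], [-20, 5, 17], [-28, 8, 15], [-26, 9, 16], [-29, 10, 18],
    [-21, 7, 13], [4, -9, 26, -10]] (by decide +kernel)

theorem b4_21 : Good (Multiset.replicate 21 3 + {4}) :=
  good_of_ok (h := 33) (mu := List.replicate 21 3 ++ [4]) [
    [-29, -4, 33], [-21, -11, 32], [-24, -7, 25], [-30, 0, 22], [-19, -10, 29], [-26, -2, 26],
    [-25, 5, 28], [-31, 4, 27], [-17, -6, 23], [-27, 6, 24], [-23, -1, 21], [-18, -8, 20],
    [-33, 8, 19], [-13, -9, 18], [-15, -3, 10], [-12, 2, 11], [-28, 12, 16], [-14, 1, 7],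
    [-32, 15, 17], [-20, 9, 14], [-22, 3, 13], [30, -16, 31, -5]] (by decide +kernel)

theorem b4_23 : Good (Multiset.replicate 23 3 + {4}) :=
  good_of_ok (h := 36) (mu := List.replicate 23 3 ++ [4]) [
    [-36, 14, 22], [-35, 15, 17], [-34, 7, 28], [-33, 4, 25], [-32, 6, 27], [-31, -1, 35],
    [-30, 5, 26], [-28, -5, 30], [-29, -6, 29], [-27, -4, 32], [-25, 9, 18], [-26, -10, 36],
    [-18, -16, 34], [-19, -11, 31], [-17, -7, 24], [-20, -8, 23], [-15, -2, 16], [-12, -9, 20],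
    [-22, 3, 21], [-14, 2, 11], [-23, 8, 13], [-21, 10, 12], [-13, 0, 19], [1, -24, 33, -3]] (by decide +kernel)

theorem b4_27 : Good (Multiset.replicate 27 3 + {4}) :=
  good_of_ok (h := 42) (mu := List.replicate 27 3 ++ [4]) [
    [-38, 18, 24], [-42, 1, 38], [-39, 4, 37], [-41, 2, 32], [-37, 9, 31], [-40, 15, 23],
    [-34, -3, 40], [-29, 6, 30], [-35, 5, 25], [-33, 0, 35], [-31, -9, 41], [-32, 13, 20],
    [-28, 10, 12], [-30, -1, 27], [-21, 8, 16], [-22, 11, 14], [-27, 3, 26], [-24, -8, 39],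
    [-20, -6, 34], [-23, -19, 42], [-18, -16, 36], [-26, -12, 33], [-15, -7, 19],
    [-10, -5, 21], [-25, -11, 28], [-14, -13, 22], [-17, -4, 17], [29, -36, 7, -2]] (by decide +kernel)

theorem b44_1 : Good (Multiset.replicate 1 3 + {4, 4}) :=
  good_of_ok (h := 5) (mu := List.replicate 1 3 ++ [4, 4]) [
    [-4, 0, 3], [5, -5, 2, -1], [4, 1, -3, -2]] (by decide +kernel)

theorem b44_3 : Good (Multiset.replicate 3 3 + {4, 4}) :=
  good_of_ok (h := 8) (mu := List.replicate 3 3 ++ [4, 4]) [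
    [-5, 0, 8], [-7, -1, 1], [-4, -3, 5], [4, 3, -6, 2], [7, -8, 6, -2]] (by decide +kernel)

theorem b44_5 : Good (Multiset.replicate 5 3 + {4, 4}) :=
  good_of_ok (h := 11) (mu := List.replicate 5 3 ++ [4, 4]) [
    [-8, -3, 10], [-7, 1, 8], [-10, 3, 5], [-6, -2, 6], [-5, 2, 4], [7, -11, 9, -4],
    [-9, -1, 11, 0]] (by decide +kernel)

theorem b44_7 : Good (Multiset.replicate 7 3 + {4, 4}) :=
  good_of_ok (h := 14) (mu := List.replicate 7 3 ++ [4, 4]) [
    [-13, 3, 11], [-10, 2, 4], [-2, 1, 10], [-5, -4, 14], [-11, 0, 12], [-8, -6, 13],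
    [-9, -3, 6], [8, 5, -1, -12], [9, -7, 7, -14]] (by decide +kernel)

theorem b44_9 : Good (Multiset.replicate 9 3 + {4, 4}) :=
  good_of_ok (h := 17) (mu := List.replicate 9 3 ++ [4, 4]) [
    [-17, 0, 17], [-15, 6, 9], [-7, 5, 11], [-14, -2, 15], [-13, 1, 8], [-12, -3, 14],
    [-10, -1, 7], [-8, -5, 13], [-6, -4, 16], [3, -11, 10, 4], [12, -9, 2, -16]] (by decide +kernel)

theorem b44_11 : Good (Multiset.replicate 11 3 + {4, 4}) :=
  good_of_ok (h := 20) (mu := List.replicate 11 3 ++ [4, 4]) [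
    [-14, -6, 20], [-18, -1, 13], [-19, 2, 8], [-8, 0, 17], [-12, -3, 10], [-20, 7, 11],
    [-16, 4, 12], [-11, -7, 15], [-9, 6, 9], [-17, 1, 19], [-15, 5, 14], [-4, -2, 3, -10],
    [-13, 18, -5, 16]] (by decide +kernel)

theorem b44_13 : Good (Multiset.replicate 13 3 + {4, 4}) :=
  good_of_ok (h := 23) (mu := List.replicate 13 3 ++ [4, 4]) [
    [-22, 0, 23], [-23, 7, 11], [-19, 5, 17], [-20, -3, 14], [-17, -2, 22], [-15, 6, 10],
    [-21, 1, 18], [-12, -6, 20], [-14, -1, 13], [-9, -4, 19], [-11, 3, 4], [-10, -7, 16],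
    [-13, 2, 15], [-16, 12, 9, -5], [-8, 21, -18, 8]] (by decide +kernel)

theorem b44_15 : Good (Multiset.replicate 15 3 + {4, 4}) :=
  good_of_ok (h := 26) (mu := List.replicate 15 3 ++ [4, 4]) [
    [-25, -1, 17], [-26, 11, 13], [-23, 7, 19], [-22, 5, 20], [-19, 9, 14], [-8, 2, 8],
    [0, 1, 4], [-10, 3, 16], [-20, -2, 22], [-16, -5, 23], [-17, -3, 25], [-12, -6, 21],
    [-14, -9, 26], [-15, -4, 18], [-13, -11, 24], [-24, 12, -21, 10], [-7, 6, 15, -18]] (by decide +kernel)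

theorem b44_17 : Good (Multiset.replicate 17 3 + {4, 4}) :=
  good_of_ok (h := 29) (mu := List.replicate 17 3 ++ [4, 4]) [
    [-29, 7, 13], [-26, 8, 21], [-28, 9, 17], [-25, 5, 23], [-24, 11, 16], [-27, -1, 20],
    [-23, 6, 19], [-12, 2, 15], [-10, -2, 4], [-11, -4, 10], [-22, -3, 27], [-20, -6, 29],
    [-18, -5, 18], [-19, -8, 26], [-14, -7, 28], [-16, -13, 24], [-15, -9, 25],
    [-21, 12, 0, 22], [14, -17, 3, 1]] (by decide +kernel)

theorem b44_19 : Good (Multiset.replicate 19 3 + {4, 4}) :=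
  good_of_ok (h := 32) (mu := List.replicate 19 3 ++ [4, 4]) [
    [-32, 2, 23], [-30, -2, 24], [-31, 5, 21], [-27, 6, 26], [-29, 9, 22], [-26, 3, 27],
    [-25, 0, 28], [-24, 8, 12], [-22, -5, 32], [-17, -12, 31], [-16, -6, 13], [-23, -1, 25],
    [-21, 7, 16], [-19, 4, 17], [-20, -11, 29], [-15, -13, 30], [-14, -4, 10], [-8, -3, 19],
    [-10, -9, 14], [18, 11, 1, -18], [-7, 20, -28, 15]] (by decide +kernel)

theorem b44_21 : Good (Multiset.replicate 21 3 + {4, 4}) :=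
  good_of_ok (h := 35) (mu := List.replicate 21 3 ++ [4, 4]) [
    [-31, 0, 35], [-22, -13, 30], [-33, 1, 33], [-26, -2, 32], [-16, -14, 34], [-28, -5, 29],
    [-17, -8, 31], [-23, -6, 25], [-21, -1, 28], [-30, 3, 26], [-35, 9, 24], [-12, -4, 17],
    [-11, -10, 21], [-9, 7, 8], [-25, 10, 22], [-20, 2, 23], [-19, 12, 14], [-24, 4, 18],
    [-34, 11, 20], [-29, 5, 16], [-32, 13, 15], [-27, 19, -3, -7], [-15, 27, -18, 6]] (by decide +kernel)

theorem b45_0 : Good (Multiset.replicate 0 3 + {4, 5}) :=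
  good_of_ok (h := 4) (mu := List.replicate 0 3 ++ [4, 5]) [
    [4, -1, 2, -2], [0, -3, 1, 3, -4]] (by decide +kernel)

theorem b45_2 : Good (Multiset.replicate 2 3 + {4, 5}) :=
  good_of_ok (h := 7) (mu := List.replicate 2 3 ++ [4, 5]) [
    [-7, 3, 4], [-4, -3, 2], [-2, 6, 0, 5], [1, -1, -5, 7, -6]] (by decide +kernel)

theorem b45_4 : Good (Multiset.replicate 4 3 + {4, 5}) :=
  good_of_ok (h := 10) (mu := List.replicate 4 3 ++ [4, 5]) [
    [-4, 1, 8], [-10, 0, 5], [-8, 2, 6], [-5, -2, 4], [3, 7, -1, -7], [9, -9, 10, -3, -6]] (by decide +kernel)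

theorem b45_6 : Good (Multiset.replicate 6 3 + {4, 5}) :=
  good_of_ok (h := 13) (mu := List.replicate 6 3 ++ [4, 5]) [
    [-5, -2, 13], [-11, -1, 8], [-10, 0, 5], [-9, 1, 11], [-4, 2, 4], [-7, -6, 10],
    [6, -12, 3, 7], [9, -13, 12, -3, -8]] (by decide +kernel)

theorem b45_8 : Good (Multiset.replicate 8 3 + {4, 5}) :=
  good_of_ok (h := 16) (mu := List.replicate 8 3 ++ [4, 5]) [
    [-12, 0, 16], [-16, 2, 13], [-6, -4, 11], [-5, -2, 14], [-10, 5, 8], [-14, 1, 10],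
    [-15, 4, 6], [-8, -7, 7], [-9, 12, -11, 3], [9, -1, 15, -13, -3]] (by decide +kernel)

theorem b45_10 : Good (Multiset.replicate 10 3 + {4, 5}) :=
  good_of_ok (h := 19) (mu := List.replicate 10 3 ++ [4, 5]) [
    [-17, -2, 16], [-12, -3, 18], [-19, 1, 11], [-13, 2, 17], [-15, 3, 15], [-8, 5, 6],
    [-16, 7, 9], [-6, 0, 8], [-11, -5, 12], [-18, 4, 13], [14, -1, -9, -4],
    [19, -10, -7, 10, -14]] (by decide +kernel)

theorem b45_12 : Good (Multiset.replicate 12 3 + {4, 5}) :=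
  good_of_ok (h := 22) (mu := List.replicate 12 3 ++ [4, 5]) [
    [-16, -6, 22], [-21, 2, 20], [-11, -4, 19], [-12, -8, 21], [-15, -1, 18], [-10, -7, 17],
    [-3, 0, 4], [-14, 5, 9], [-13, 6, 13], [-17, 3, 15], [-18, 8, 12], [-22, 10, 11],
    [-20, 16, -5, 7], [1, -19, -2, 14, -9]] (by decide +kernel)

theorem b45_14 : Good (Multiset.replicate 14 3 + {4, 5}) :=
  good_of_ok (h := 25) (mu := List.replicate 14 3 ++ [4, 5]) [
    [-25, 4, 16], [-21, -3, 24], [-20, -2, 25], [-24, 6, 19], [-22, 10, 12], [-18, 2, 14],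
    [-16, 5, 13], [-5, 3, 9], [-14, 0, 15], [-17, -6, 23], [-9, -4, 11], [-10, -7, 20],
    [-13, -12, 21], [-11, -8, 22], [-1, -19, 18, 1], [7, -15, 8, -23, 17]] (by decide +kernel)

theorem b45_16 : Good (Multiset.replicate 16 3 + {4, 5}) :=
  good_of_ok (h := 28) (mu := List.replicate 16 3 ++ [4, 5]) [
    [-28, 6, 17], [-27, 4, 20], [-25, 0, 28], [-26, 13, 14], [-24, 5, 21], [-23, -5, 22],
    [-21, 1, 11], [-18, 9, 10], [-17, 2, 19], [-12, -6, 12], [-19, -2, 27], [-15, -1, 16],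
    [-13, -11, 24], [-16, -10, 26], [-14, -3, 23], [-20, -7, 25], [18, -4, 8, -22],
    [15, -8, 3, -9, 7]] (by decide +kernel)

theorem b47_0 : Good (Multiset.replicate 0 3 + {4, 7}) :=
  good_of_ok (h := 5) (mu := List.replicate 0 3 ++ [4, 7]) [
    [-4, 4, -5, 1], [3, 2, -1, 5, -3, -2, 0]] (by decide +kernel)

theorem b47_2 : Good (Multiset.replicate 2 3 + {4, 7}) :=
  good_of_ok (h := 8) (mu := List.replicate 2 3 ++ [4, 7]) [
    [-8, 3, 5], [-4, -3, 8], [-5, 7, 0, 6], [-1, -7, 1, -2, 2, -6, 4]] (by decide +kernel)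

theorem b47_4 : Good (Multiset.replicate 4 3 + {4, 7}) :=
  good_of_ok (h := 11) (mu := List.replicate 4 3 ++ [4, 7]) [
    [-4, 2, 7], [-5, 0, 11], [-11, 3, 5], [-6, -3, 10], [-9, 9, -7, 8],
    [-8, 1, 4, 6, -10, -1, -2]] (by decide +kernel)

theorem b47_6 : Good (Multiset.replicate 6 3 + {4, 7}) :=
  good_of_ok (h := 14) (mu := List.replicate 6 3 ++ [4, 7]) [
    [-10, 4, 8], [-12, -2, 13], [-11, 0, 10], [-8, -1, 1], [-7, -6, 14], [-4, 6, 7],
    [-14, 11, -5, 9], [12, -3, -9, 5, -13, 3, 2]] (by decide +kernel)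

theorem b47_8 : Good (Multiset.replicate 8 3 + {4, 7}) :=
  good_of_ok (h := 17) (mu := List.replicate 8 3 ++ [4, 7]) [
    [-13, -1, 17], [-17, 0, 11], [-11, 2, 13], [-10, -6, 9], [-7, 4, 5], [-16, 6, 8],
    [-5, -2, 12], [-14, 3, 10], [-9, 14, -8, -4], [7, 1, 16, -15, 15, -3, -12]] (by decide +kernel)

theorem b47_10 : Good (Multiset.replicate 10 3 + {4, 7}) :=
  good_of_ok (h := 20) (mu := List.replicate 10 3 ++ [4, 7]) [
    [-9, -2, 20], [-20, 2, 17], [-18, 6, 14], [-12, -3, 13], [-10, -4, 10], [-17, 0, 12],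
    [-11, 4, 5], [-16, 7, 8], [-7, -6, 9], [-13, 3, 11], [1, 16, -8, 15],
    [-5, -14, 19, -15, -1, -19, 18]] (by decide +kernel)

theorem b47_12 : Good (Multiset.replicate 12 3 + {4, 7}) :=
  good_of_ok (h := 23) (mu := List.replicate 12 3 ++ [4, 7]) [
    [-22, 4, 19], [-23, 1, 14], [-15, -6, 22], [-21, 9, 10], [-16, 8, 12], [-20, 6, 7],
    [-11, 5, 13], [-13, -4, 16], [-12, -7, 21], [-19, -1, 23], [-14, -9, 20], [-10, -5, 15],
    [-3, 2, -18, 11], [-8, -2, 0, 17, -17, 18, 3]] (by decide +kernel)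

theorem b47_14 : Good (Multiset.replicate 14 3 + {4, 7}) :=
  good_of_ok (h := 26) (mu := List.replicate 14 3 ++ [4, 7]) [
    [-26, 10, 14], [-25, 1, 25], [-24, -1, 21], [-22, 7, 18], [-16, 8, 15], [-20, 6, 13],
    [-10, 5, 12], [-17, -3, 11], [-5, -4, 17], [-19, -2, 20], [-12, -6, 16], [-14, -9, 23],
    [-15, -7, 22], [-18, -8, 24], [26, -21, 4, -23], [-13, 0, -11, 9, 2, 19, 3]] (by decide +kernel)

theorem b47_16 : Good (Multiset.replicate 16 3 + {4, 7}) :=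
  good_of_ok (h := 29) (mu := List.replicate 16 3 ++ [4, 7]) [
    [-28, 4, 15], [-26, 7, 20], [-27, 2, 24], [-24, -4, 25], [-20, 10, 18], [-17, -3, 26],
    [-21, 6, 12], [-9, 8, 9], [-23, 5, 19], [-18, 1, 21], [-10, -1, 3], [-16, -6, 22],
    [-13, -8, 23], [-12, -11, 16], [-15, -14, 28], [-19, -7, 27], [-22, -5, 0, 29],
    [17, -25, 11, 14, -2, 13, -29]] (by decide +kernel)

theorem b47_18 : Good (Multiset.replicate 18 3 + {4, 7}) :=
  good_of_ok (h := 32) (mu := List.replicate 18 3 ++ [4, 7]) [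
    [-31, 15, 16], [-25, 4, 26], [-23, -2, 29], [-26, 8, 20], [-28, 5, 18], [-29, -3, 27],
    [-27, 3, 23], [-24, -7, 28], [-19, 11, 14], [-21, 9, 10], [-5, 2, 7], [-13, -1, 6],
    [-14, -8, 21], [-16, -4, 24], [-22, -6, 22], [-15, -11, 25], [-18, -12, 30],
    [-17, -10, 32], [12, 17, 0, -9], [-30, 13, -32, 19, -20, 31, 1]] (by decide +kernel)

theorem b47_20 : Good (Multiset.replicate 20 3 + {4, 7}) :=
  good_of_ok (h := 35) (mu := List.replicate 20 3 ++ [4, 7]) [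
    [-33, 5, 30], [-35, 0, 31], [-34, 16, 18], [-32, 10, 19], [-30, -4, 28], [-25, 8, 25],
    [-31, 2, 24], [-24, -2, 34], [-27, 7, 13], [-26, -6, 33], [-23, -1, 29], [-11, 1, 14],
    [-20, 11, 12], [-16, -3, 15], [-15, 4, 17], [-17, -10, 26], [-19, -14, 32], [-12, -9, 20],
    [-22, -8, 27], [-18, -13, 35], [9, 21, -7, -5], [-21, 22, 3, -28, 23, -29, 6]] (by decide +kernel)

theorem b5_4 : Good (Multiset.replicate 4 3 + {5}) :=
  good_of_ok (h := 8) (mu := List.replicate 4 3 ++ [5]) [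
    [-7, -1, 7], [-8, 3, 4], [-5, -2, 6], [-4, 1, 2], [8, 0, -6, 5, -3]] (by decide +kernel)

theorem b5_6 : Good (Multiset.replicate 6 3 + {5}) :=
  good_of_ok (h := 11) (mu := List.replicate 6 3 ++ [5]) [
    [-10, 2, 5], [-9, 0, 9], [-5, 4, 7], [-6, -1, 11], [-8, -3, 6], [-4, -2, 10],
    [-7, 8, -11, 1, 3]] (by decide +kernel)

theorem b5_8 : Good (Multiset.replicate 8 3 + {5}) :=
  good_of_ok (h := 14) (mu := List.replicate 8 3 ++ [5]) [
    [-14, 5, 6], [-12, -2, 12], [-10, 3, 9], [-11, 1, 8], [-7, 2, 11], [-3, -1, 4],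
    [-8, -4, 10], [-6, -5, 13], [-13, 0, 14, -9, 7]] (by decide +kernel)

theorem b5_10 : Good (Multiset.replicate 10 3 + {5}) :=
  good_of_ok (h := 17) (mu := List.replicate 10 3 ++ [5]) [
    [-6, -3, 17], [-16, -1, 16], [-12, -4, 8], [-15, 0, 13], [-14, 3, 9], [-17, 7, 10],
    [-9, -5, 14], [-10, 2, 4], [-8, 5, 11], [-11, -2, 12], [-7, 6, 1, -13, 15]] (by decide +kernel)

theorem b5_12 : Good (Multiset.replicate 12 3 + {5}) :=
  good_of_ok (h := 20) (mu := List.replicate 12 3 ++ [5]) [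
    [-15, -2, 20], [-12, -8, 15], [-20, 2, 18], [-13, -6, 17], [-17, 1, 14], [-19, 4, 12],
    [-11, -3, 13], [-7, -5, 6], [-9, -1, 9], [-16, 3, 11], [-14, 5, 8], [-18, 7, 10],
    [-10, 16, -4, 0, 19]] (by decide +kernel)

theorem b5_14 : Good (Multiset.replicate 14 3 + {5}) :=
  good_of_ok (h := 23) (mu := List.replicate 14 3 ++ [5]) [
    [-23, 8, 15], [-20, -1, 22], [-16, 3, 19], [-21, 7, 11], [-22, 2, 18], [-18, 0, 13],
    [-19, -3, 17], [-13, 4, 6], [-17, 5, 14], [-7, -4, 12], [-10, -6, 10], [-12, -5, 21],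
    [-11, -8, 23], [-14, -9, 20], [16, -15, 9, -2, 1]] (by decide +kernel)

theorem b5_16 : Good (Multiset.replicate 16 3 + {5}) :=
  good_of_ok (h := 26) (mu := List.replicate 16 3 ++ [5]) [
    [-26, 5, 17], [-24, -2, 23], [-19, 2, 24], [-18, 3, 21], [-21, 9, 16], [-23, 4, 19],
    [-22, 6, 12], [-7, 0, 8], [-15, 7, 13], [-20, -3, 22], [-10, -1, 10], [-8, -5, 15],
    [-13, -9, 26], [-14, -11, 25], [-12, -6, 18], [-16, -4, 20], [-25, 11, -17, 14, 1]] (by decide +kernel)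

theorem b5_18 : Good (Multiset.replicate 18 3 + {5}) :=
  good_of_ok (h := 29) (mu := List.replicate 18 3 ++ [5]) [
    [-17, -6, 29], [-25, -4, 26], [-27, -1, 22], [-20, -2, 28], [-28, 1, 27], [-22, -3, 20],
    [-21, -5, 25], [-11, -8, 24], [-14, -10, 21], [-13, -7, 16], [-12, 4, 14], [-15, 8, 11],
    [-19, 5, 19], [-23, 2, 13], [-24, 9, 18], [-16, 3, 7], [-29, 12, 17], [-26, 10, 15],
    [23, -18, 0, 6, -9]] (by decide +kernel)

theorem b5_20 : Good (Multiset.replicate 20 3 + {5}) :=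
  good_of_ok (h := 32) (mu := List.replicate 20 3 ++ [5]) [
    [-29, -2, 32], [-18, -12, 31], [-26, -3, 30], [-32, 0, 24], [-30, 2, 29], [-22, -5, 22],
    [-17, -8, 28], [-15, -9, 27], [-31, 5, 20], [-23, 1, 21], [-27, 6, 23], [-20, 3, 25],
    [-11, -7, 13], [-14, -1, 11], [-13, -6, 14], [-16, 4, 10], [-25, 9, 12], [-21, 7, 16],
    [-28, 8, 18], [-24, 15, 17], [19, -4, -19, 26, -10]] (by decide +kernel)

theorem b5_22 : Good (Multiset.replicate 22 3 + {5}) :=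
  good_of_ok (h := 35) (mu := List.replicate 22 3 ++ [5]) [
    [-21, -13, 35], [-17, -14, 34], [-35, 0, 33], [-27, -6, 32], [-22, -3, 31], [-23, 1, 30],
    [-31, -1, 26], [-33, 5, 29], [-12, -8, 27], [-24, -5, 28], [-32, 6, 24], [-20, -7, 23],
    [-4, -2, 12], [-15, 3, 15], [-10, -9, 22], [-18, 4, 7], [-25, 8, 16], [-30, 9, 20],
    [-26, 2, 19], [-28, 10, 25], [-29, 13, 14], [-34, 11, 21], [17, -16, 18, -19, -11]] (by decide +kernel)

theorem tri31 : TriPart [1, 2, 3, 4] 31 9 :=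
  triPart_of_ok [
    (15, 16), (13, 17), (8, 21), (9, 19), (5, 22), (6, 20), (7, 18), (10, 14), (11, 12)] rfl (by decide +kernel)

theorem tri34 : TriPart [1, 2, 3, 5] 34 10 :=
  triPart_of_ok [
    (14, 20), (15, 18), (7, 25), (12, 19), (6, 24), (8, 21), (11, 17), (4, 23), (10, 16),
    (9, 13)] rfl (by decide +kernel)

theorem tri37 : TriPart [1, 2, 3, 5] 37 11 :=
  triPart_of_ok [
    (14, 23), (12, 24), (8, 27), (4, 30), (11, 22), (15, 17), (10, 21), (13, 16), (9, 19),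
    (6, 20), (7, 18)] rfl (by decide +kernel)

theorem tri38 : TriPart [1, 2, 3, 4, 7] 38 11 :=
  triPart_of_ok [
    (16, 22), (17, 20), (13, 23), (11, 24), (9, 25), (5, 28), (6, 26), (10, 21), (12, 18),
    (14, 15), (8, 19)] rfl (by decide +kernel)

theorem tri39 : TriPart [1, 2, 4, 8, 9, 10] 39 11 :=
  triPart_of_ok [
    (17, 22), (15, 23), (16, 21), (7, 29), (11, 24), (14, 20), (6, 27), (13, 19), (5, 26),
    (12, 18), (3, 25)] rfl (by decide +kernel)

theorem tri40 : TriPart [1, 2, 3, 4] 40 12 :=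
  triPart_of_ok [
    (15, 25), (12, 27), (8, 30), (9, 28), (14, 22), (6, 29), (16, 18), (10, 23), (13, 19),
    (11, 20), (5, 21), (7, 17)] rfl (by decide +kernel)

theorem tri41 : TriPart [1, 2, 3, 4, 7] 41 12 :=
  triPart_of_ok [
    (16, 25), (19, 21), (9, 30), (14, 24), (11, 26), (5, 31), (8, 27), (12, 22), (13, 20),
    (15, 17), (6, 23), (10, 18)] rfl (by decide +kernel)

theorem tri42 : TriPart [1, 3, 4, 5, 6, 10] 42 12 :=
  triPart_of_ok [
    (16, 26), (20, 21), (9, 31), (14, 25), (15, 23), (8, 29), (12, 24), (17, 18), (7, 27),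
    (11, 22), (13, 19), (2, 28)] rfl (by decide +kernel)

theorem tri44 : TriPart [1, 2, 4, 5, 6] 44 13 :=
  triPart_of_ok [
    (15, 29), (10, 33), (11, 31), (9, 32), (18, 22), (14, 25), (12, 26), (17, 20), (8, 28),
    (16, 19), (13, 21), (7, 23), (3, 24)] rfl (by decide +kernel)

theorem tri45 : TriPart [1, 2, 3, 4, 6, 7] 45 13 :=
  triPart_of_ok [
    (16, 29), (18, 26), (10, 33), (12, 30), (14, 27), (15, 25), (19, 20), (17, 21), (9, 28),
    (5, 31), (13, 22), (11, 23), (8, 24)] rfl (by decide +kernel)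

theorem tri46 : TriPart [1, 2, 3, 5] 46 14 :=
  triPart_of_ok [
    (14, 32), (7, 38), (15, 29), (20, 23), (11, 31), (6, 35), (12, 28), (13, 26), (10, 27),
    (17, 19), (16, 18), (9, 24), (8, 22), (4, 21)] rfl (by decide +kernel)

theorem tri47 : TriPart [1, 2, 4, 5, 6] 47 14 :=
  triPart_of_ok [
    (15, 32), (9, 37), (7, 38), (17, 27), (14, 29), (19, 23), (16, 25), (12, 28), (18, 21),
    (10, 26), (11, 24), (3, 31), (13, 20), (8, 22)] rfl (by decide +kernel)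

theorem tri48 : TriPart [1, 2, 4, 8, 9, 10] 48 14 :=
  triPart_of_ok [
    (17, 31), (12, 35), (7, 39), (19, 26), (16, 28), (14, 29), (15, 27), (20, 21), (18, 22),
    (13, 25), (5, 32), (3, 33), (11, 23), (6, 24)] rfl (by decide +kernel)

theorem tri50 : TriPart [1, 2, 3, 4, 7] 50 15 :=
  triPart_of_ok [
    (16, 34), (9, 40), (5, 43), (18, 29), (15, 31), (22, 23), (17, 27), (12, 30), (20, 21),
    (6, 33), (14, 24), (11, 26), (8, 28), (10, 25), (13, 19)] rfl (by decide +kernel)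

theorem tri51 : TriPart [1, 2, 4, 8, 9, 10] 51 15 :=
  triPart_of_ok [
    (17, 34), (6, 44), (14, 35), (20, 28), (11, 36), (13, 33), (22, 23), (19, 24), (16, 26),
    (12, 29), (15, 25), (18, 21), (7, 31), (5, 32), (3, 27)] rfl (by decide +kernel)

theorem tri53 : TriPart [1, 2, 3, 4, 7] 53 16 :=
  triPart_of_ok [
    (16, 37), (23, 29), (5, 46), (10, 40), (14, 35), (12, 36), (13, 34), (18, 27), (19, 25),
    (15, 28), (20, 22), (11, 30), (8, 31), (17, 21), (9, 24), (6, 26)] rfl (by decide +kernel)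

theorem tri54 : TriPart [1, 2, 3, 4, 6, 7] 54 16 :=
  triPart_of_ok [
    (16, 38), (24, 29), (5, 47), (21, 30), (15, 35), (13, 36), (17, 31), (9, 37), (20, 25),
    (18, 26), (10, 33), (19, 23), (14, 27), (8, 32), (11, 28), (12, 22)] rfl (by decide +kernel)

theorem tri63 : TriPart [1, 2, 4, 8, 9, 10] 63 19 :=
  triPart_of_ok [
    (29, 34), (20, 42), (24, 37), (5, 55), (16, 43), (25, 33), (21, 36), (6, 50), (14, 40),
    (26, 27), (22, 30), (12, 39), (18, 31), (7, 41), (3, 44), (11, 35), (17, 28), (15, 23),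
    (13, 19)] rfl (by decide +kernel)

theorem tri75 : TriPart [1, 2, 4, 8, 9, 10] 75 23 :=
  triPart_of_ok [
    (29, 46), (35, 39), (7, 66), (16, 56), (20, 51), (34, 36), (26, 43), (21, 47), (19, 48),
    (32, 33), (3, 61), (23, 40), (13, 49), (15, 45), (17, 42), (27, 31), (5, 52), (18, 37),
    (24, 30), (12, 41), (22, 28), (6, 38), (11, 14)] rfl (by decide +kernel)

theorem tri87 : TriPart [1, 2, 4, 8, 9, 10] 87 27 :=
  triPart_of_ok [
    (29, 58), (27, 59), (32, 53), (23, 61), (40, 43), (3, 79), (33, 48), (28, 52), (16, 62),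
    (31, 46), (12, 64), (7, 68), (19, 55), (17, 56), (6, 66), (14, 57), (25, 45), (30, 39),
    (26, 41), (18, 47), (21, 42), (22, 38), (20, 34), (15, 36), (13, 37), (5, 44), (11, 24)] rfl (by decide +kernel)

end Pool.Agent.helper9.SV
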