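import Pool.Agent.helper9.SV.Pats

/-!
# Symmetric cores
-/

namespace Pool.Agent.helper9.SV

theorem coreStep {A : List ℤ} {h n j : ℕ} (hT : TriPart A h n) {M : Multiset ℕ}
    (cs : List (List ℤ))
    (hlen : ((cs.map List.length : List ℕ) : Multiset ℕ) = Multiset.replicate j 3 + M)
    (hlab : ((cs.flatten : List ℤ) : Multiset ℤ) =
      ((0 :: (A ++ A.map Neg.neg) : List ℤ) : Multiset ℤ))
    (hsum : (((cs.map cycSums).flatten : List ℤ) : Multiset ℤ) =
      ((0 :: (A ++ A.map Neg.neg) : List ℤ) : Multiset ℤ)) :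
    Good (Multiset.replicate (2 * n + j) 3 + M) := by
  have h1 := good_of_triPart hT cs hlen hlab hsum
  rwa [← add_assoc, ← Multiset.replicate_add] at h1

theorem core4o {h n : ℕ} (hT : TriPart [1, 2, 3, 4, 6, 7] h n) :
    Good (Multiset.replicate (2 * n + 3) 3 + {4}) :=
  coreStep hT [[-7, 0, -6, 6], [-4, 1, 2], [-3, -1, 7], [-2, 3, 4]] (by decide +kernel)
    (by decide +kernel) (by decide +kernel)

theorem core4e {h n : ℕ} (hT : TriPart [1, 2, 4, 8, 9, 10] h n) :
    Good (Multiset.replicate (2 * n + 3) 3 + {4}) :=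
  coreStep hT [[-10, 1, -9, 10], [-8, -2, 4], [-4, 2, 8], [-1, 0, 9]] (by decide +kernel)
    (by decide +kernel) (by decide +kernel)

theorem core4x {h n : ℕ} (hT : TriPart [1, 3, 4, 5, 6, 10] h n) :
    Good (Multiset.replicate (2 * n + 3) 3 + {4}) :=
  coreStep hT [[-10, 4, -3, 6], [-6, -4, 3], [-5, 0, 10], [-1, 1, 5]] (by decide +kernel)
    (by decide +kernel) (by decide +kernel)

theorem core5o {h n : ℕ} (hT : TriPart [1, 2, 3, 4, 7] h n) :
    Good (Multiset.replicate (2 * n + 2) 3 + {5}) :=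
  coreStep hT [[-7, 0, -1, -3, 7], [-4, 1, 2], [-2, 3, 4]] (by decide +kernel)
    (by decide +kernel) (by decide +kernel)

theorem core5e {h n : ℕ} (hT : TriPart [1, 2, 4, 5, 6] h n) :
    Good (Multiset.replicate (2 * n + 2) 3 + {5}) :=
  coreStep hT [[-4, 0, 4, -2, 2], [-6, 1, 5], [-5, -1, 6]] (by decide +kernel)
    (by decide +kernel) (by decide +kernel)

theorem core44o {h n : ℕ} (hT : TriPart [1, 2, 3, 4, 7] h n) :
    Good (Multiset.replicate (2 * n + 1) 3 + {4, 4}) :=
  coreStep hT [[-4, 2, 1, 3], [-3, -1, -2, 4], [-7, 0, 7]] (by decide +kernel)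
    (by decide +kernel) (by decide +kernel)

theorem core44e {h n : ℕ} (hT : TriPart [1, 2, 4, 5, 6] h n) :
    Good (Multiset.replicate (2 * n + 1) 3 + {4, 4}) :=
  coreStep hT [[-6, 1, -5, 6], [-4, -2, 4, 2], [-1, 0, 5]] (by decide +kernel)
    (by decide +kernel) (by decide +kernel)

theorem core47o {h n : ℕ} (hT : TriPart [1, 2, 3, 4, 7] h n) :
    Good (Multiset.replicate (2 * n + 0) 3 + {4, 7}) :=
  coreStep hT [[-7, 0, -3, -1, 2, -4, 7], [-2, 1, 3, 4]] (by decide +kernel)
    (by decide +kernel) (by decide +kernel)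

theorem core47e {h n : ℕ} (hT : TriPart [1, 2, 4, 5, 6] h n) :
    Good (Multiset.replicate (2 * n + 0) 3 + {4, 7}) :=
  coreStep hT [[-6, 0, -5, 1, -2, 2, 4], [-4, 5, -1, 6]] (by decide +kernel)
    (by decide +kernel) (by decide +kernel)

theorem core45e {h n : ℕ} (hT : TriPart [1, 2, 3, 4] h n) :
    Good (Multiset.replicate (2 * n + 0) 3 + {4, 5}) :=
  coreStep hT [[-4, 0, -3, 1, 3], [-2, 2, -1, 4]] (by decide +kernel)
    (by decide +kernel) (by decide +kernel)

theorem core45o {h n : ℕ} (hT : TriPart [1, 2, 3, 5] h n) :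
    Good (Multiset.replicate (2 * n + 0) 3 + {4, 5}) :=
  coreStep hT [[-5, 0, 5, -3, 3], [-2, -1, 2, 1]] (by decide +kernel)
    (by decide +kernel) (by decide +kernel)

/-! ## explicit labellings -/

/-- a checker for explicit labellings -/
def goodOk (h : ℕ) (cs : List (List ℤ)) (mu : List ℕ) : Bool :=
  decide (cs.map List.length = mu) &&
    (decide (cs.flatten.length = 2 * h + 1) &&
      (List.range (2 * h + 1)).all fun i => decide (((i : ℤ) - h) ∈ cs.flatten)) &&
    (decide ((cs.map cycSums).flatten.length = 2 * h + 1) &&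
      (List.range (2 * h + 1)).all fun i => decide (((i : ℤ) - h) ∈ (cs.map cycSums).flatten))

theorem eq_Icc_of_ok {h : ℕ} {l : List ℤ} (hok : (decide (l.length = 2 * h + 1) &&
      (List.range (2 * h + 1)).all fun i => decide (((i : ℤ) - h) ∈ l)) = true) :
    (l : Multiset ℤ) = (Finset.Icc (-(h : ℤ)) h).val := by
  rw [Bool.and_eq_true, decide_eq_true_eq, List.all_eq_true] at hok
  refine eq_Icc_of_surj hok.1 fun y h1 h2 => ?_
  have := hok.2 (y + h).toNat (by rw [List.mem_range]; omega)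
  rw [decide_eq_true_eq] at this
  have e : (((y + h).toNat : ℕ) : ℤ) - h = y := by omega
  rwa [e] at this

theorem good_of_ok {h : ℕ} (cs : List (List ℤ)) {mu : List ℕ} (hok : goodOk h cs mu = true) :
    Good (mu : Multiset ℕ) := by
  unfold goodOk at hok
  rw [Bool.and_eq_true, Bool.and_eq_true, decide_eq_true_eq] at hok
  obtain ⟨⟨h1, h2⟩, h3⟩ := hok
  have hl := eq_Icc_of_ok h2
  refine ⟨h, ?_, cs, by rw [h1], hl, eq_Icc_of_ok h3⟩
  have h4 := congrArg Multiset.card hl
  rw [Multiset.coe_card, List.length_flatten, h1, Finset.card_val, Int.card_Icc] at h4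
  rw [Multiset.sum_coe, h4]
  omega

end Pool.Agent.helper9.SV
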