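import Mathlib

/-!
# Finite coverage of multisets by tiles: tree search

`search tiles q top fuel a l` explores all extensions of the non-increasing list `l` by further
(larger) parts in front, between `a` and `top`, and cuts when a tile is contained.
-/

namespace Pool.Agent.helper9.SV

/-- tree search over lists -/
def search (tiles : ℕ → List (List ℕ)) (q : List ℕ → Bool) (top : ℕ) : ℕ → ℕ → List ℕ → Bool
  | 0, _, _ => false
  | fuel + 1, a, l => q l && (List.range (top + 1 - a)).all fun i =>
      (tiles (a + i)).any (fun p => p.isSublist ((a + i) :: l)) ||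
        search tiles q top fuel (a + i) ((a + i) :: l)

theorem search_spec (tiles : ℕ → List (List ℕ)) (q : List ℕ → Bool) (top : ℕ) :
    ∀ (s : List ℕ) (fuel a : ℕ) (l : List ℕ), search tiles q top fuel a l = true →
      s.Pairwise (· ≤ ·) → (∀ x ∈ s, a ≤ x ∧ x ≤ top) →
      (∀ x, ∀ p ∈ tiles x, ¬ p.Sublist (s.reverse ++ l)) → q (s.reverse ++ l) = true := by
  intro s
  induction s with
  | nil =>
    intro fuel a l h _ _ _
    cases fuel with
    | zero => simp [search] at h
    | succ fuel =>
      rw [search, Bool.and_eq_true] at h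
      simpa using h.1
  | cons x s ih =>
    intro fuel a l h hs hx hfree
    cases fuel with
    | zero => simp [search] at h
    | succ fuel =>
      rw [search, Bool.and_eq_true] at h
      have hxa := hx x (by simp)
      have h2 := List.all_eq_true.1 h.2 (x - a) (List.mem_range.2 (by omega))
      rw [Nat.add_sub_cancel' hxa.1, Bool.or_eq_true] at h2
      have hl : (x :: s).reverse ++ l = s.reverse ++ x :: l := by simp
      rw [hl] at hfree ⊢
      rcases h2 with h2 | h2
      · exfalso
        obtain ⟨p, hp, hp'⟩ := List.any_eq_true.1 h2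
        exact hfree x p hp ((List.isSublist_iff_sublist.1 hp').trans
          (List.sublist_append_right _ _))
      · rw [List.pairwise_cons] at hs
        exact ih fuel x (x :: l) h2 hs.2
          (fun y hy => ⟨hs.1 y hy, (hx y (List.mem_cons_of_mem _ hy)).2⟩) hfree

/-- every multiset of parts between `a` and `top` that contains no tile satisfies `q` -/
theorem cover (tiles : ℕ → List (List ℕ)) (q : List ℕ → Bool) (top fuel a : ℕ)
    (h : search tiles q top fuel a [] = true) (mu : Multiset ℕ)
    (hmu : ∀ x ∈ mu, a ≤ x ∧ x ≤ top)
    (hfree : ∀ x, ∀ p ∈ tiles x, ¬ ((p : Multiset ℕ) ≤ mu)) :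
    ∃ l : List ℕ, (l : Multiset ℕ) = mu ∧ q l = true := by
  have hs : ((mu.sort (· ≤ ·)).reverse : Multiset ℕ) = mu := by
    rw [Multiset.coe_reverse, Multiset.sort_eq]
  refine ⟨(mu.sort (· ≤ ·)).reverse, hs, ?_⟩
  have := search_spec tiles q top (mu.sort (· ≤ ·)) fuel a [] h (Multiset.pairwise_sort _ _)
    (fun x hx => hmu x (by simpa using hx)) (by
      intro x p hp hsub
      apply hfree x p hp
      rw [← hs]
      rw [List.append_nil] at hsub
      exact hsub.subperm)
  simpa using this

end Pool.Agent.helper9.SV
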