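import Mathlib

/-!
# Centred edge labellings of 2-regular graphs: definitions

`Good mu`: the disjoint union of cycles with the lengths in `mu` (of odd order `2 h + 1`) has a
labelling of its edges by `-h, …, h` such that the vertex sums are again `-h, …, h`.
-/

namespace Pool.Agent.helper9.SV

/-- sums of cyclically consecutive entries -/
def cycSums : List ℤ → List ℤ
  | [] => []
  | x :: l => List.zipWith (· + ·) (x :: l) (l ++ [x])

/-- the labels `A` and the sums `S` are realised by cycles with lengths `mu` -/
def Fill (A S : Multiset ℤ) (mu : Multiset ℕ) : Prop :=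
  ∃ cs : List (List ℤ), ((cs.map List.length : List ℕ) : Multiset ℕ) = mu ∧
    (cs.flatten : Multiset ℤ) = A ∧ ((cs.map cycSums).flatten : Multiset ℤ) = S

/-- the disjoint union of cycles with lengths `mu` has a centred labelling -/
def Good (mu : Multiset ℕ) : Prop :=
  ∃ h : ℕ, mu.sum = 2 * h + 1 ∧
    Fill (Finset.Icc (-(h : ℤ)) h).val (Finset.Icc (-(h : ℤ)) h).val mu

end Pool.Agent.helper9.SV
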