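import Pool.Agent.helper9.SV.Defs

/-!
# From good multisets to edge labellings of 2-regular graphs

Decomposition of a 2-regular graph in cycles, given by lists of vertices.
-/

namespace Pool.Agent.helper9.SV

open SimpleGraph

/-- a decomposition of a graph in cycles -/
structure CycDec {V : Type*} [DecidableEq V] (G : SimpleGraph V) (ds : List (List V)) : Prop where
  nodup : ds.flatten.Nodup
  mem : ∀ v, v ∈ ds.flatten
  len : ∀ d ∈ ds, 3 ≤ d.length
  adj : ∀ d ∈ ds, ∀ v ∈ d, ∀ w, G.Adj v w ↔ (w = d.formPerm v ∨ v = d.formPerm w)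

section dec

variable {V : Type*} [Fintype V] [DecidableEq V] {G : SimpleGraph V} [DecidableRel G.Adj]

omit [DecidableEq V] in
theorem isCycles_of_regular (hG : G.IsRegularOfDegree 2) : G.IsCycles := by
  intro v _
  have h := hG.degree_eq v
  rw [← G.coe_neighborFinset v, Set.ncard_coe_finset, card_neighborFinset_eq_degree, h]

theorem exists_cycle_list (hG : G.IsRegularOfDegree 2) (c : G.ConnectedComponent) :
    ∃ d : List V, d.Nodup ∧ (∀ v, v ∈ d ↔ v ∈ c.supp) ∧ 3 ≤ d.length ∧
      ∀ v ∈ d, G.Adj v (d.formPerm v) := by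
  obtain ⟨v, hv⟩ := c.nonempty_supp
  have hne : (G.neighborSet v).Nonempty := by
    have h := hG.degree_eq v
    rw [← card_neighborFinset_eq_degree] at h
    obtain ⟨w, hw⟩ : (G.neighborFinset v).Nonempty := by
      rw [← Finset.card_pos]; omega
    exact ⟨w, by simpa using hw⟩
  obtain ⟨p, hp, hps⟩ :=
    (isCycles_of_regular hG).exists_cycle_toSubgraph_verts_eq_connectedComponentSupp hv hne
  have hlen := hp.three_le_length
  have hnodup : ((List.range p.length).map p.getVert).Nodup := by
    rw [List.nodup_map_iff_inj_on List.nodup_range]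
    intro x hx y hy hxy
    rw [List.mem_range] at hx hy
    exact hp.getVert_injOn' (by simp only [Set.mem_ofPred_eq]; omega)
      (by simp only [Set.mem_ofPred_eq]; omega) hxy
  refine ⟨(List.range p.length).map p.getVert, hnodup, ?_, ?_, ?_⟩
  · intro w
    rw [← hps, Walk.mem_verts_toSubgraph, Walk.mem_support_iff_exists_getVert, List.mem_map]
    constructor
    · rintro ⟨n, hn, rfl⟩
      rw [List.mem_range] at hn
      exact ⟨n, rfl, hn.le⟩
    · rintro ⟨n, rfl, hn⟩
      rcases hn.lt_or_eq with h | h
      · exact ⟨n, List.mem_range.2 h, rfl⟩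
      · refine ⟨0, List.mem_range.2 (by omega), ?_⟩
        rw [h, Walk.getVert_length, Walk.getVert_zero]
  · simpa using hlen
  · intro w hw
    obtain ⟨n, hn, rfl⟩ := List.getElem_of_mem hw
    rw [List.formPerm_apply_getElem _ hnodup]
    simp only [List.length_map, List.length_range] at hn
    simp only [List.getElem_map, List.getElem_range, List.length_map, List.length_range]
    rcases Nat.lt_or_ge (n + 1) p.length with h | h
    · rw [Nat.mod_eq_of_lt h]
      exact p.adj_getVert_succ hn
    · have h' : n + 1 = p.length := by omega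
      rw [h', Nat.mod_self, Walk.getVert_zero]
      have := p.adj_getVert_succ hn
      rwa [h', Walk.getVert_length] at this

omit [Fintype V] in
theorem formPerm_sq_ne {d : List V} (hd : d.Nodup) (hl : 3 ≤ d.length) {v : V} (hv : v ∈ d) :
    d.formPerm (d.formPerm v) ≠ v := by
  obtain ⟨n, hn, rfl⟩ := List.getElem_of_mem hv
  rw [List.formPerm_apply_getElem _ hd, List.formPerm_apply_getElem _ hd]
  intro h
  have h2 := (List.Nodup.getElem_inj_iff hd).1 h
  rcases Nat.lt_or_ge (n + 1) d.length with h3 | h3
  · rw [Nat.mod_eq_of_lt h3] at h2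
    rcases Nat.lt_or_ge (n + 2) d.length with h4 | h4
    · rw [Nat.mod_eq_of_lt (by omega)] at h2; omega
    · have : n + 1 + 1 = d.length := by omega
      rw [this, Nat.mod_self] at h2; omega
  · have : n + 1 = d.length := by omega
    rw [this, Nat.mod_self, Nat.mod_eq_of_lt (by omega)] at h2; omega

theorem adj_iff_of_list (hG : G.IsRegularOfDegree 2) {d : List V} (hd : d.Nodup)
    (hl : 3 ≤ d.length) (h : ∀ v ∈ d, G.Adj v (d.formPerm v)) :
    ∀ v ∈ d, ∀ w, G.Adj v w ↔ (w = d.formPerm v ∨ v = d.formPerm w) := by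
  intro v hv w
  have hv' : d.formPerm.symm v ∈ d := by
    rw [← List.formPerm_mem_iff_mem]; simpa using hv
  have h1 : G.Adj v (d.formPerm v) := h v hv
  have h2 : G.Adj v (d.formPerm.symm v) := by
    have := h _ hv'
    rw [Equiv.apply_symm_apply] at this
    exact this.symm
  have hne : d.formPerm v ≠ d.formPerm.symm v := by
    intro h3
    apply formPerm_sq_ne hd hl hv
    rw [h3, Equiv.apply_symm_apply]
  have hcard : ({d.formPerm v, d.formPerm.symm v} : Finset V) = G.neighborFinset v := by
    apply Finset.eq_of_subset_of_card_le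
    · intro x hx
      simp only [Finset.mem_insert, Finset.mem_singleton] at hx
      rcases hx with rfl | rfl <;> simpa
    · rw [card_neighborFinset_eq_degree, hG.degree_eq v, Finset.card_pair hne]
  rw [← mem_neighborFinset, ← hcard, Finset.mem_insert, Finset.mem_singleton]
  apply or_congr Iff.rfl
  rw [Equiv.eq_symm_apply]
  exact eq_comm

theorem exists_cycDec (hG : G.IsRegularOfDegree 2) : ∃ ds : List (List V), CycDec G ds := by
  classical
  choose d hd1 hd2 hd3 hd4 using exists_cycle_list hG
  have : Fintype G.ConnectedComponent := Fintype.ofFinite _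
  refine ⟨(Finset.univ : Finset G.ConnectedComponent).toList.map d, ?_, ?_, ?_, ?_⟩
  · rw [List.nodup_flatten]
    constructor
    · intro l hl
      obtain ⟨c, -, rfl⟩ := List.mem_map.1 hl
      exact hd1 c
    · rw [List.pairwise_map]
      apply List.Pairwise.imp _ (Finset.nodup_toList _)
      intro c c' hcc x hx hx'
      rw [hd2] at hx hx'
      apply hcc
      rw [ConnectedComponent.mem_supp_iff] at hx hx'
      rw [← hx, ← hx']
  · intro v
    rw [List.mem_flatten]
    refine ⟨d (G.connectedComponentMk v), List.mem_map.2 ⟨_, by simp, rfl⟩, ?_⟩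
    rw [hd2]
    rfl
  · intro l hl
    obtain ⟨c, -, rfl⟩ := List.mem_map.1 hl
    exact hd3 c
  · intro l hl
    obtain ⟨c, -, rfl⟩ := List.mem_map.1 hl
    exact adj_iff_of_list hG (hd1 c) (hd3 c) (hd4 c)

end dec

end Pool.Agent.helper9.SV
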