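import Pool.Agent.helper9.SV.Graph

/-!
# From good multisets to edge labellings of 2-regular graphs, part 2

Labels along the cycles.
-/

namespace Pool.Agent.helper9.SV

open SimpleGraph

section lists

variable {V W : Type*}

theorem exists_perm_of_map_perm (f : V → W) :
    ∀ (m : List W) (l : List V), (l.map f).Perm m → ∃ l' : List V, l'.Perm l ∧ l'.map f = m := by
  intro m
  induction m with
  | nil =>
    intro l h
    have h1 := h.eq_nil
    rw [List.map_eq_nil_iff] at h1
    exact ⟨[], by rw [h1], rfl⟩
  | cons b m ih =>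
    intro l h
    have hb : b ∈ l.map f := h.symm.subset (by simp)
    obtain ⟨a, ha, rfl⟩ := List.mem_map.1 hb
    obtain ⟨s, t, rfl⟩ := List.append_of_mem ha
    have h1 : ((s ++ t).map f).Perm m := by
      have h2 : ((s ++ a :: t).map f).Perm ((a :: (s ++ t)).map f) :=
        List.perm_middle.map f
      exact (h2.symm.trans h).cons_inv
    obtain ⟨l', hl', hm⟩ := ih _ h1
    exact ⟨a :: l', (hl'.cons a).trans List.perm_middle.symm, by simp [hm]⟩

theorem exists_fun_of_nodup [DecidableEq V] [Inhabited W] :
    ∀ (l : List V) (m : List W), l.Nodup → l.length = m.length → ∃ φ : V → W, l.map φ = m := by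
  intro l
  induction l with
  | nil =>
    intro m _ h
    refine ⟨fun _ => default, ?_⟩
    rw [List.map_nil]
    exact (List.length_eq_zero_iff.1 h.symm).symm
  | cons a l ih =>
    intro m hn h
    rcases m with _ | ⟨b, m⟩
    · simp at h
    · rw [List.nodup_cons] at hn
      obtain ⟨φ, hφ⟩ := ih m hn.2 (by simpa using h)
      refine ⟨Function.update φ a b, ?_⟩
      rw [List.map_cons, Function.update_self, ← hφ]
      congr 1
      apply List.map_congr_left
      intro x hx
      rw [Function.update_of_ne]
      rintro rfl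
      exact hn.1 hx

theorem map_map_eq_of_flatten (φ : V → W) :
    ∀ (ds : List (List V)) (cs : List (List W)), ds.map List.length = cs.map List.length →
      ds.flatten.map φ = cs.flatten → ds.map (List.map φ) = cs := by
  intro ds
  induction ds with
  | nil =>
    intro cs h _
    rw [List.map_nil] at h ⊢
    exact (List.map_eq_nil_iff.1 h.symm).symm
  | cons d ds ih =>
    intro cs h h'
    rcases cs with _ | ⟨c, cs⟩
    · simp at h
    · simp only [List.map_cons, List.cons.injEq] at h
      simp only [List.flatten_cons, List.map_append] at h'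
      have h1 := List.append_inj h' (by rw [List.length_map]; exact h.1)
      rw [List.map_cons, h1.1, ih cs h.2 h1.2]

/-- a list of disjoint lists can be mapped to any other one with the same lengths -/
theorem exists_fun_of_lengths [DecidableEq V] [Inhabited W] (ds : List (List V))
    (cs : List (List W)) (hd : ds.flatten.Nodup)
    (h : (ds.map List.length : Multiset ℕ) = (cs.map List.length : List ℕ)) :
    ∃ φ : V → W, (ds.map (List.map φ)).Perm cs := by
  rw [Multiset.coe_eq_coe] at h
  obtain ⟨cs', hp, hl⟩ := exists_perm_of_map_perm List.length _ cs h.symm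
  obtain ⟨φ, hφ⟩ := exists_fun_of_nodup ds.flatten cs'.flatten hd (by
    rw [List.length_flatten, List.length_flatten, hl])
  exact ⟨φ, by rw [map_map_eq_of_flatten φ ds cs' hl.symm hφ]; exact hp⟩

theorem cycSums_eq (l : List ℤ) : cycSums l = List.zipWith (· + ·) l (l.rotate 1) := by
  cases l with
  | nil => rfl
  | cons x l => simp [cycSums]

theorem cycSums_map [DecidableEq V] (φ : V → ℤ) {d : List V} (hd : d.Nodup) :
    cycSums (d.map φ) = d.map (fun v => φ v + φ (d.formPerm v)) := by
  rw [cycSums_eq]
  apply List.ext_getElem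
  · simp
  · intro i h1 h2
    rw [List.length_map] at h2
    rw [List.getElem_zipWith, List.getElem_rotate, List.getElem_map, List.getElem_map,
      List.getElem_map, List.formPerm_apply_getElem _ hd]
    simp

end lists

section sigma

variable {V : Type*} [DecidableEq V] {G : SimpleGraph V}

theorem CycDec.unique {ds : List (List V)} (h : CycDec G ds) {d d' : List V} (hd : d ∈ ds)
    (hd' : d' ∈ ds) {v : V} (hv : v ∈ d) (hv' : v ∈ d') : d = d' := by
  by_contra hne
  have h1 := (List.nodup_flatten.1 h.nodup).2
  have : Std.Symm (List.Disjoint : List V → List V → Prop) := ⟨fun _ _ h => h.symm⟩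
  exact List.Pairwise.forall h1 hd hd' hne hv hv'

theorem CycDec.nodup_of_mem {ds : List (List V)} (h : CycDec G ds) {d : List V} (hd : d ∈ ds) :
    d.Nodup := (List.nodup_flatten.1 h.nodup).1 d hd

/-- the successor permutation -/
theorem CycDec.exists_perm [Finite V] {ds : List (List V)} (h : CycDec G ds) :
    ∃ σ : Equiv.Perm V, (∀ d ∈ ds, ∀ v ∈ d, σ v = d.formPerm v) ∧
      (∀ v w, G.Adj v w ↔ (w = σ v ∨ v = σ w)) ∧ ∀ v, σ (σ v) ≠ v := by
  have h1 : ∀ v, ∃ d ∈ ds, v ∈ d := fun v => List.mem_flatten.1 (h.mem v)
  choose D hD hvD using h1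
  have hkey : ∀ d ∈ ds, ∀ v ∈ d, D v = d := fun d hd v hv => h.unique (hD v) hd (hvD v) hv
  have hinj : Function.Injective (fun v => (D v).formPerm v) := by
    intro v w hvw
    simp only at hvw
    have h2 : (D v).formPerm v ∈ D v := List.formPerm_apply_mem_of_mem (hvD v)
    have h3 : (D w).formPerm w ∈ D w := List.formPerm_apply_mem_of_mem (hvD w)
    rw [hvw] at h2
    have h4 : D v = D w := h.unique (hD v) (hD w) h2 h3
    rw [h4] at hvw
    exact (D w).formPerm.injective hvw
  refine ⟨Equiv.ofBijective _ (Finite.injective_iff_bijective.1 hinj), ?_, ?_, ?_⟩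
  · intro d hd v hv
    show (D v).formPerm v = d.formPerm v
    rw [hkey d hd v hv]
  · intro v w
    show G.Adj v w ↔ (w = (D v).formPerm v ∨ v = (D w).formPerm w)
    rw [h.adj (D v) (hD v) v (hvD v) w]
    apply or_congr Iff.rfl
    by_cases hw : w ∈ D v
    · rw [hkey (D v) (hD v) w hw]
    · rw [List.formPerm_apply_of_notMem hw]
      constructor
      · rintro rfl
        exact absurd (hvD v) hw
      · intro h5
        exfalso
        have h2 : (D w).formPerm w ∈ D w := List.formPerm_apply_mem_of_mem (hvD w)
        rw [← h5] at h2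
        exact hw (by rw [hkey (D w) (hD w) v h2]; exact hvD w)
  · intro v
    show (D ((D v).formPerm v)).formPerm ((D v).formPerm v) ≠ v
    rw [hkey (D v) (hD v) _ (List.formPerm_apply_mem_of_mem (hvD v))]
    exact formPerm_sq_ne (h.nodup_of_mem (hD v)) (h.len _ (hD v)) (hvD v)

end sigma

end Pool.Agent.helper9.SV
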