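import Pool.Agent.helper9.SV.GraphB

/-!
# From good multisets to edge labellings of 2-regular graphs, part 3

The labelling, and the statement of the problem from the goodness of all multisets.
-/

namespace Pool.Agent.helper9.SV

open SimpleGraph

section labels

variable {V : Type*} [DecidableEq V] {G : SimpleGraph V}

theorem exists_labels [Fintype V] {ds : List (List V)} (h : CycDec G ds)
    (hgood : Good (ds.map List.length : List ℕ)) :
    ∃ (n : ℕ) (φ : V → ℤ) (σ : Equiv.Perm V), Fintype.card V = 2 * n + 1 ∧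
      (∀ v w, G.Adj v w ↔ (w = σ v ∨ v = σ w)) ∧ (∀ v, σ (σ v) ≠ v) ∧
      Function.Injective φ ∧ (∀ v, -(n : ℤ) ≤ φ v ∧ φ v ≤ n) ∧
      Function.Injective (fun v => φ v + φ (σ v)) ∧
      (∀ v, -(n : ℤ) ≤ φ v + φ (σ v) ∧ φ v + φ (σ v) ≤ n) := by
  obtain ⟨n, hsum, cs, hcs, hA, hS⟩ := hgood
  obtain ⟨φ, hφ⟩ := exists_fun_of_lengths ds cs h.nodup hcs.symm
  obtain ⟨σ, hσ, hadj, hsq⟩ := h.exists_perm
  have hflat : (ds.flatten.map φ).Perm cs.flatten := by
    rw [List.map_flatten]
    exact hφ.flatten
  have hA' : (ds.flatten.map φ : Multiset ℤ) = (Finset.Icc (-(n : ℤ)) n).val := by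
    rw [← hA]
    exact Multiset.coe_eq_coe.2 hflat
  have hflat2 : (ds.flatten.map (fun v => φ v + φ (σ v))).Perm (cs.map cycSums).flatten := by
    rw [List.map_flatten]
    refine List.Perm.trans (List.Perm.of_eq ?_) (hφ.map cycSums).flatten
    rw [List.map_map]
    congr 1
    apply List.map_congr_left
    intro d hd
    rw [Function.comp_apply, cycSums_map φ (h.nodup_of_mem hd)]
    apply List.map_congr_left
    intro v hv
    rw [hσ d hd v hv]
  have hS' : (ds.flatten.map (fun v => φ v + φ (σ v)) : Multiset ℤ) =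
      (Finset.Icc (-(n : ℤ)) n).val := by
    rw [← hS]
    exact Multiset.coe_eq_coe.2 hflat2
  have hnd : (ds.flatten.map φ).Nodup := by
    rw [← Multiset.coe_nodup, hA']
    exact Finset.nodup _
  have hnd2 : (ds.flatten.map (fun v => φ v + φ (σ v))).Nodup := by
    rw [← Multiset.coe_nodup, hS']
    exact Finset.nodup _
  refine ⟨n, φ, σ, ?_, hadj, hsq, ?_, ?_, ?_, ?_⟩
  · have h1 : ds.flatten.toFinset = Finset.univ := by
      ext v
      simp [h.mem v, -List.mem_flatten]
    have h2 := List.toFinset_card_of_nodup h.nodup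
    rw [h1, Finset.card_univ, List.length_flatten] at h2
    rw [h2, ← hsum, Multiset.sum_coe]
  · intro v w hvw
    exact List.inj_on_of_nodup_map hnd (h.mem v) (h.mem w) hvw
  · intro v
    have h1 : φ v ∈ (ds.flatten.map φ : Multiset ℤ) :=
      Multiset.mem_coe.2 (List.mem_map_of_mem (h.mem v))
    rw [hA', Finset.mem_val, Finset.mem_Icc] at h1
    exact h1
  · intro v w hvw
    exact List.inj_on_of_nodup_map hnd2 (h.mem v) (h.mem w) hvw
  · intro v
    have h1 : φ v + φ (σ v) ∈ (ds.flatten.map (fun v => φ v + φ (σ v)) : Multiset ℤ) :=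
      Multiset.mem_coe.2 (List.mem_map_of_mem (f := fun v => φ v + φ (σ v)) (h.mem v))
    rw [hS', Finset.mem_val, Finset.mem_Icc] at h1
    exact h1

theorem exists_magic [Fintype V] [Fintype G.edgeSet] {ds : List (List V)} (h : CycDec G ds)
    (hgood : Good (ds.map List.length : List ℕ)) :
    ∃ f : V ⊕ G.edgeSet → ℕ, Function.Injective f ∧
      (∀ x, 1 ≤ f x ∧ f x ≤ Fintype.card V + Fintype.card G.edgeSet) ∧
      (∀ v : V, Fintype.card G.edgeSet < f (Sum.inl v)) ∧
      ∃ k : ℕ, ∀ x : V,
        f (Sum.inl x) + ∑ e ∈ Finset.univ.filter (fun e : G.edgeSet => x ∈ (e : Sym2 V)),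
          f (Sum.inr e) = k := by
  obtain ⟨n, φ, σ, hcard, hadj, hsq, hi, hb, hi2, hb2⟩ := exists_labels h hgood
  have hbij : Function.Bijective
      (fun v => (⟨s(v, σ v), by rw [mem_edgeSet, hadj]; exact Or.inl rfl⟩ : G.edgeSet)) := by
    constructor
    · intro v w hvw
      have h1 : s(v, σ v) = s(w, σ w) := congrArg Subtype.val hvw
      rw [Sym2.eq_iff] at h1
      rcases h1 with h1 | h1
      · exact h1.1
      · exfalso
        apply hsq v
        rw [h1.2, ← h1.1]
    · rintro ⟨e, he⟩
      induction e using Sym2.ind with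
      | _ a b =>
        rw [mem_edgeSet, hadj] at he
        rcases he with rfl | rfl
        · exact ⟨a, rfl⟩
        · exact ⟨b, Subtype.ext Sym2.eq_swap⟩
  set β : V ≃ G.edgeSet := Equiv.ofBijective _ hbij with hβ
  have hβv : ∀ v, ((β v : G.edgeSet) : Sym2 V) = s(v, σ v) := fun v => rfl
  have hcardE : Fintype.card G.edgeSet = 2 * n + 1 := by
    rw [← hcard]; exact (Fintype.card_congr β).symm
  have hne : ∀ x, σ x ≠ x := by
    intro x hx
    have h1 : G.Adj x x := (hadj x x).2 (Or.inl hx.symm)
    exact G.irrefl h1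
  refine ⟨Sum.elim (fun v => (3 * (n : ℤ) + 2 - (φ (σ.symm v) + φ (σ (σ.symm v)))).toNat)
    (fun e => (φ (β.symm e) + n + 1).toNat), ?_, ?_, ?_, 5 * n + 4, ?_⟩
  · rintro (v | e) (w | e') hvw
    · simp only [Sum.elim_inl] at hvw
      have h1 := hb2 (σ.symm v)
      have h2 := hb2 (σ.symm w)
      have h3 : φ (σ.symm v) + φ (σ (σ.symm v)) = φ (σ.symm w) + φ (σ (σ.symm w)) := by omega
      have h4 : σ.symm v = σ.symm w := hi2 h3
      rw [σ.symm.injective h4]
    · exfalso
      simp only [Sum.elim_inl, Sum.elim_inr] at hvw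
      have h1 := hb2 (σ.symm v)
      have h2 := hb (β.symm e')
      omega
    · exfalso
      simp only [Sum.elim_inl, Sum.elim_inr] at hvw
      have h1 := hb2 (σ.symm w)
      have h2 := hb (β.symm e)
      omega
    · simp only [Sum.elim_inr] at hvw
      have h1 := hb (β.symm e)
      have h2 := hb (β.symm e')
      have h3 : φ (β.symm e) = φ (β.symm e') := by omega
      rw [β.symm.injective (hi h3)]
  · rintro (v | e)
    · simp only [Sum.elim_inl]
      have h1 := hb2 (σ.symm v)
      omega
    · simp only [Sum.elim_inr]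
      have h1 := hb (β.symm e)
      omega
  · intro v
    simp only [Sum.elim_inl]
    have h1 := hb2 (σ.symm v)
    omega
  · intro x
    have hset : (Finset.univ.filter (fun e : G.edgeSet => x ∈ (e : Sym2 V))) =
        {β x, β (σ.symm x)} := by
      ext e
      obtain ⟨v, rfl⟩ := β.surjective e
      rw [Finset.mem_filter, hβv, Sym2.mem_iff, Finset.mem_insert, Finset.mem_singleton,
        β.injective.eq_iff, β.injective.eq_iff, Equiv.eq_symm_apply]
      simp only [Finset.mem_univ, true_and]
      exact or_congr eq_comm eq_comm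
    have hne2 : β x ≠ β (σ.symm x) := by
      intro h1
      have h2 := β.injective h1
      rw [Equiv.eq_symm_apply] at h2
      exact hne x h2
    rw [hset, Finset.sum_pair hne2]
    simp only [Sum.elim_inl, Sum.elim_inr, Equiv.symm_apply_apply, Equiv.apply_symm_apply]
    have h1 := hb2 (σ.symm x)
    rw [Equiv.apply_symm_apply] at h1
    have h2 := hb x
    have h3 := hb (σ.symm x)
    omega

end labels

section iso

theorem formPerm_map {V W : Type*} [DecidableEq V] [DecidableEq W] (φ : V → W)
    (hφ : Function.Injective φ) {d : List V} (hd : d.Nodup) (v : V) :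
    (d.map φ).formPerm (φ v) = φ (d.formPerm v) := by
  have hd' : (d.map φ).Nodup := hd.map hφ
  by_cases hv : v ∈ d
  · obtain ⟨i, hi, rfl⟩ := List.getElem_of_mem hv
    have h1 := List.formPerm_apply_getElem (d.map φ) hd' i (by simpa using hi)
    rw [List.getElem_map] at h1
    rw [h1, List.getElem_map, List.formPerm_apply_getElem _ hd]
    simp
  · rw [List.formPerm_apply_of_notMem hv, List.formPerm_apply_of_notMem]
    intro h1
    obtain ⟨w, hw, hw'⟩ := List.mem_map.1 h1
    exact hv (hφ hw' ▸ hw)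

theorem CycDec.iso {V W : Type*} [DecidableEq V] [DecidableEq W] [Inhabited W]
    {G : SimpleGraph V} {G' : SimpleGraph W} {ds : List (List V)} {es : List (List W)}
    (h : CycDec G ds) (h' : CycDec G' es)
    (hl : (ds.map List.length : Multiset ℕ) = (es.map List.length : List ℕ)) :
    Nonempty (G ≃g G') := by
  obtain ⟨φ, hφ⟩ := exists_fun_of_lengths ds es h.nodup hl
  have hflat : (ds.flatten.map φ).Perm es.flatten := by
    rw [List.map_flatten]
    exact hφ.flatten
  have hnd : (ds.flatten.map φ).Nodup := hflat.symm.nodup h'.nodup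
  have hinj : Function.Injective φ := fun v w hvw =>
    List.inj_on_of_nodup_map hnd (h.mem v) (h.mem w) hvw
  have hsurj : Function.Surjective φ := by
    intro w
    have h1 : w ∈ ds.flatten.map φ := hflat.symm.subset (h'.mem w)
    obtain ⟨v, -, hv⟩ := List.mem_map.1 h1
    exact ⟨v, hv⟩
  refine ⟨⟨Equiv.ofBijective φ ⟨hinj, hsurj⟩, ?_⟩⟩
  intro v w
  show G'.Adj (φ v) (φ w) ↔ G.Adj v w
  obtain ⟨d, hd, hv⟩ := List.mem_flatten.1 (h.mem v)
  have hd' : d.map φ ∈ es := hφ.subset (List.mem_map_of_mem hd)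
  rw [h.adj d hd v hv w, h'.adj _ hd' (φ v) (List.mem_map_of_mem hv) (φ w),
    formPerm_map φ hinj (h.nodup_of_mem hd), formPerm_map φ hinj (h.nodup_of_mem hd),
    hinj.eq_iff, hinj.eq_iff]

end iso

end Pool.Agent.helper9.SV
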