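import Pool.Agent.helper9.SV.Tri

/-!
# Partitions into triples depending linearly on a parameter: a checker
-/

namespace Pool.Agent.helper9.SV

/-- the linear form `a s + b` -/
structure LF where
  a : ℤ
  b : ℤ
deriving DecidableEq

def LF.ev (f : LF) (s : ℤ) : ℤ := f.a * s + f.b

/-- `f ≤ g` for all `s ≥ s0` -/
def LF.le (s0 : ℤ) (f g : LF) : Bool :=
  decide (f.a ≤ g.a) && decide (f.a * s0 + f.b ≤ g.a * s0 + g.b)

theorem LF.le_ev {s0 s : ℤ} (hs : s0 ≤ s) {f g : LF} (h : LF.le s0 f g = true) :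
    f.ev s ≤ g.ev s := by
  unfold LF.le at h
  rw [Bool.and_eq_true, decide_eq_true_eq, decide_eq_true_eq] at h
  unfold LF.ev
  nlinarith [mul_nonneg (sub_nonneg.2 h.1) (sub_nonneg.2 hs)]

/-- the pairs `(l + 2 i, c - i)`, `i < n` -/
structure Fam where
  l : LF
  c : LF
  n : LF
deriving DecidableEq

def Fam.list (F : Fam) (s : ℤ) : List (ℤ × ℤ) :=
  (List.range (F.n.ev s).toNat).map fun i : ℕ => (F.l.ev s + 2 * (i : ℤ), F.c.ev s - (i : ℤ))

/-- why an interval is covered -/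
inductive Reason
  | core
  | yr (F : Fam)
  | zr (F : Fam)
  | xx (F G : Fam)
  | x1 (F : Fam)
  | s0 (p : LF × LF)
  | s1 (p : LF × LF)
  | s2 (p : LF × LF)

structure Pat where
  A : List ℤ
  fams : List Fam
  spor : List (LF × LF)
  h : LF
  s0 : ℤ
  cert : List (LF × Reason)

def xok (s0 : ℤ) (lo hi : LF) (F : Fam) : Bool :=
  LF.le s0 F.l ⟨lo.a, lo.b + 1⟩ && LF.le s0 hi ⟨F.l.a + 2 * F.n.a, F.l.b + 2 * F.n.b - 1⟩

def Pat.step (P : Pat) (lo hi : LF) : Reason → Bool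
  | .core => decide (lo = hi) && decide (lo.a = 0) && decide (lo.b ∈ P.A)
  | .yr F => decide (F ∈ P.fams) && LF.le P.s0 ⟨F.c.a - F.n.a, F.c.b - F.n.b + 1⟩ lo &&
      LF.le P.s0 hi F.c
  | .zr F => decide (F ∈ P.fams) && LF.le P.s0 ⟨F.c.a + F.l.a, F.c.b + F.l.b⟩ lo &&
      LF.le P.s0 hi ⟨F.c.a + F.l.a + F.n.a, F.c.b + F.l.b + F.n.b - 1⟩
  | .xx F G => decide (F ∈ P.fams) && decide (G ∈ P.fams) && decide (F.l.a % 2 = 0) &&
      decide (G.l.a % 2 = 0) && decide ((F.l.b - G.l.b) % 2 = 1) && xok P.s0 lo hi F &&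
      xok P.s0 lo hi G
  | .x1 F => decide (F ∈ P.fams) && decide (lo = hi) && decide ((lo.a - F.l.a) % 2 = 0) &&
      decide ((lo.b - F.l.b) % 2 = 0) && LF.le P.s0 F.l lo &&
      LF.le P.s0 hi ⟨F.l.a + 2 * F.n.a, F.l.b + 2 * F.n.b - 2⟩
  | .s0 p => decide (p ∈ P.spor) && decide (lo = hi) && decide (lo = p.1)
  | .s1 p => decide (p ∈ P.spor) && decide (lo = hi) && decide (lo = p.2)
  | .s2 p => decide (p ∈ P.spor) && decide (lo = hi) &&
      decide (lo = ⟨p.1.a + p.2.a, p.1.b + p.2.b⟩)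

def Pat.chk (P : Pat) : LF → List (LF × Reason) → Bool
  | lo, [] => decide (lo = ⟨P.h.a, P.h.b + 1⟩)
  | lo, (hi, r) :: rest => P.step lo hi r && P.chk ⟨hi.a, hi.b + 1⟩ rest

def Pat.ok (P : Pat) : Bool :=
  P.chk ⟨0, 1⟩ P.cert &&
    decide (3 * (P.fams.map fun F => F.n.a).sum = P.h.a) &&
    decide ((P.A.length : ℤ) + 3 * ((P.fams.map fun F => F.n.b).sum + P.spor.length) = P.h.b) &&
    P.fams.all (fun F => LF.le P.s0 ⟨0, 0⟩ F.n)

def Pat.T (P : Pat) (s : ℤ) : List (ℤ × ℤ) :=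
  (P.fams.flatMap fun F => F.list s) ++ P.spor.map fun p => (p.1.ev s, p.2.ev s)

def Pat.Cov (P : Pat) (s y : ℤ) : Prop :=
  y ∈ P.A ∨ ∃ p ∈ P.T s, y = p.1 ∨ y = p.2 ∨ y = p.1 + p.2

theorem Pat.mem_T_fam {P : Pat} {s : ℤ} {F : Fam} (hF : F ∈ P.fams) {i : ℤ} (hi : 0 ≤ i)
    (hn : i < F.n.ev s) : (F.l.ev s + 2 * i, F.c.ev s - i) ∈ P.T s := by
  refine List.mem_append_left _ ?_
  rw [List.mem_flatMap]
  refine ⟨F, hF, ?_⟩
  unfold Fam.list
  rw [List.mem_map]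
  refine ⟨i.toNat, ?_, ?_⟩
  · rw [List.mem_range]
    omega
  · rw [Int.toNat_of_nonneg hi]

theorem Pat.mem_T_spor {P : Pat} {s : ℤ} {p : LF × LF} (hp : p ∈ P.spor) :
    (p.1.ev s, p.2.ev s) ∈ P.T s :=
  List.mem_append_right _ (List.mem_map_of_mem hp)

theorem ev_mk (a b s : ℤ) : LF.ev ⟨a, b⟩ s = a * s + b := rfl

theorem ev_succ (f : LF) (s : ℤ) : LF.ev ⟨f.a, f.b + 1⟩ s = f.ev s + 1 := by
  unfold LF.ev
  ring

theorem Pat.cov_x {P : Pat} {s : ℤ} {F : Fam} (hF : F ∈ P.fams) {y : ℤ}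
    (h1 : F.l.ev s ≤ y) (h2 : y ≤ F.l.ev s + 2 * F.n.ev s - 2) (h3 : (y - F.l.ev s) % 2 = 0) :
    P.Cov s y := by
  refine Or.inr ⟨_, Pat.mem_T_fam hF (i := (y - F.l.ev s) / 2) (by omega) (by omega), Or.inl ?_⟩
  show y = F.l.ev s + 2 * ((y - F.l.ev s) / 2)
  omega

theorem Pat.cov_xx {P : Pat} {s : ℤ} {F : Fam} (hF : F ∈ P.fams) {lo hi : LF}
    {s0 : ℤ} (hs : s0 ≤ s) (h : xok s0 lo hi F = true) {y : ℤ}
    (h1 : lo.ev s ≤ y) (h2 : y ≤ hi.ev s) (h3 : (y - F.l.ev s) % 2 = 0) : P.Cov s y := by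
  unfold xok at h
  rw [Bool.and_eq_true] at h
  have e1 := LF.le_ev hs h.1
  have e2 := LF.le_ev hs h.2
  rw [ev_succ] at e1
  have e3 : LF.ev ⟨F.l.a + 2 * F.n.a, F.l.b + 2 * F.n.b - 1⟩ s =
      F.l.ev s + 2 * F.n.ev s - 1 := by
    unfold LF.ev
    ring
  rw [e3] at e2
  exact Pat.cov_x hF (by omega) (by omega) h3

theorem Pat.cov_step {P : Pat} {s : ℤ} (hs : P.s0 ≤ s) {lo hi : LF} {r : Reason}
    (h : P.step lo hi r = true) {y : ℤ} (h1 : lo.ev s ≤ y) (h2 : y ≤ hi.ev s) : P.Cov s y := by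
  cases r with
  | core =>
    simp only [Pat.step, Bool.and_eq_true, decide_eq_true_eq] at h
    obtain ⟨⟨rfl, ha⟩, hb⟩ := h
    have : y = lo.b := by
      have e : lo.ev s = lo.b := by
        unfold LF.ev
        rw [ha]
        ring
      omega
    rw [this]
    exact Or.inl hb
  | yr F =>
    simp only [Pat.step, Bool.and_eq_true, decide_eq_true_eq] at h
    obtain ⟨⟨hF, ha⟩, hb⟩ := h
    have e1 := LF.le_ev hs ha
    have e2 := LF.le_ev hs hb
    have e3 : LF.ev ⟨F.c.a - F.n.a, F.c.b - F.n.b + 1⟩ s = F.c.ev s - F.n.ev s + 1 := by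
      unfold LF.ev
      ring
    rw [e3] at e1
    refine Or.inr ⟨_, Pat.mem_T_fam hF (i := F.c.ev s - y) (by omega) (by omega),
      Or.inr (Or.inl ?_)⟩
    show y = F.c.ev s - (F.c.ev s - y)
    ring
  | zr F =>
    simp only [Pat.step, Bool.and_eq_true, decide_eq_true_eq] at h
    obtain ⟨⟨hF, ha⟩, hb⟩ := h
    have e1 := LF.le_ev hs ha
    have e2 := LF.le_ev hs hb
    have e3 : LF.ev ⟨F.c.a + F.l.a, F.c.b + F.l.b⟩ s = F.c.ev s + F.l.ev s := by
      unfold LF.ev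
      ring
    have e4 : LF.ev ⟨F.c.a + F.l.a + F.n.a, F.c.b + F.l.b + F.n.b - 1⟩ s =
        F.c.ev s + F.l.ev s + F.n.ev s - 1 := by
      unfold LF.ev
      ring
    rw [e3] at e1
    rw [e4] at e2
    refine Or.inr ⟨_, Pat.mem_T_fam hF (i := y - F.c.ev s - F.l.ev s) (by omega) (by omega),
      Or.inr (Or.inr ?_)⟩
    show y = F.l.ev s + 2 * (y - F.c.ev s - F.l.ev s) + (F.c.ev s - (y - F.c.ev s - F.l.ev s))
    ring
  | xx F G =>
    simp only [Pat.step, Bool.and_eq_true, decide_eq_true_eq] at h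
    obtain ⟨⟨⟨⟨⟨⟨hF, hG⟩, ha⟩, hb⟩, hc⟩, hd⟩, he⟩ := h
    have e1 : (F.l.ev s - G.l.ev s) % 2 = 1 := by
      obtain ⟨u, hu⟩ : (2 : ℤ) ∣ F.l.a := Int.dvd_of_emod_eq_zero ha
      obtain ⟨v, hv⟩ : (2 : ℤ) ∣ G.l.a := Int.dvd_of_emod_eq_zero hb
      have : F.l.ev s - G.l.ev s = 2 * (u * s - v * s) + (F.l.b - G.l.b) := by
        unfold LF.ev
        rw [hu, hv]
        ring
      omega
    rcases Int.emod_two_eq_zero_or_one (y - F.l.ev s) with h3 | h3
    · exact Pat.cov_xx hF hs hd h1 h2 h3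
    · exact Pat.cov_xx hG hs he h1 h2 (by omega)
  | x1 F =>
    simp only [Pat.step, Bool.and_eq_true, decide_eq_true_eq] at h
    obtain ⟨⟨⟨⟨⟨hF, rfl⟩, ha⟩, hb⟩, hc⟩, hd⟩ := h
    have e1 := LF.le_ev hs hc
    have e2 := LF.le_ev hs hd
    have e3 : LF.ev ⟨F.l.a + 2 * F.n.a, F.l.b + 2 * F.n.b - 2⟩ s =
        F.l.ev s + 2 * F.n.ev s - 2 := by
      unfold LF.ev
      ring
    rw [e3] at e2
    refine Pat.cov_x hF (by omega) (by omega) ?_
    obtain ⟨u, hu⟩ : (2 : ℤ) ∣ lo.a - F.l.a := Int.dvd_of_emod_eq_zero ha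
    have hy : y = lo.ev s := by omega
    have : y - F.l.ev s = 2 * (u * s) + (lo.b - F.l.b) := by
      rw [hy]
      unfold LF.ev
      have : lo.a = F.l.a + 2 * u := by omega
      rw [this]
      ring
    omega
  | s0 p =>
    simp only [Pat.step, Bool.and_eq_true, decide_eq_true_eq] at h
    obtain ⟨⟨hp, rfl⟩, ha⟩ := h
    refine Or.inr ⟨_, Pat.mem_T_spor hp, Or.inl ?_⟩
    rw [ha] at h1 h2
    show y = p.1.ev s
    omega
  | s1 p =>
    simp only [Pat.step, Bool.and_eq_true, decide_eq_true_eq] at h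
    obtain ⟨⟨hp, rfl⟩, ha⟩ := h
    refine Or.inr ⟨_, Pat.mem_T_spor hp, Or.inr (Or.inl ?_)⟩
    rw [ha] at h1 h2
    show y = p.2.ev s
    omega
  | s2 p =>
    simp only [Pat.step, Bool.and_eq_true, decide_eq_true_eq] at h
    obtain ⟨⟨hp, rfl⟩, ha⟩ := h
    refine Or.inr ⟨_, Pat.mem_T_spor hp, Or.inr (Or.inr ?_)⟩
    have e : lo.ev s = p.1.ev s + p.2.ev s := by
      rw [ha]
      unfold LF.ev
      ring
    show y = p.1.ev s + p.2.ev s
    omega

theorem Pat.cov_chk {P : Pat} {s : ℤ} (hs : P.s0 ≤ s) (c : List (LF × Reason)) :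
    ∀ lo : LF, P.chk lo c = true → ∀ y : ℤ, lo.ev s ≤ y → y ≤ P.h.ev s → P.Cov s y := by
  induction c with
  | nil =>
    intro lo h y h1 h2
    simp only [Pat.chk, decide_eq_true_eq] at h
    rw [h, ev_succ] at h1
    omega
  | cons a rest ih =>
    obtain ⟨hi, r⟩ := a
    intro lo h y h1 h2
    rw [Pat.chk, Bool.and_eq_true] at h
    rcases le_or_gt y (hi.ev s) with h3 | h3
    · exact Pat.cov_step hs h.1 h1 h3
    · refine ih _ h.2 y ?_ h2
      rw [ev_succ]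
      omega

theorem Pat.length_T_aux (s : ℤ) (fams : List Fam) (h : ∀ F ∈ fams, 0 ≤ F.n.ev s) :
    (((fams.flatMap fun F => F.list s).length : ℕ) : ℤ) =
      (fams.map fun F => F.n.a).sum * s + (fams.map fun F => F.n.b).sum := by
  induction fams with
  | nil => simp
  | cons F fams ih =>
    rw [List.flatMap_cons, List.length_append, List.map_cons, List.map_cons, List.sum_cons,
      List.sum_cons]
    push_cast
    rw [ih fun G hG => h G (List.mem_cons_of_mem _ hG)]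
    have h1 : (((F.list s).length : ℕ) : ℤ) = F.n.ev s := by
      unfold Fam.list
      rw [List.length_map, List.length_range]
      exact Int.toNat_of_nonneg (h F List.mem_cons_self)
    rw [h1]
    unfold LF.ev
    ring

theorem Pat.sound (P : Pat) (hP : P.ok = true) {s h n : ℕ} (hs : P.s0 ≤ s)
    (hh : (h : ℤ) = P.h.a * s + P.h.b) (hn : P.A.length + 3 * n = h) : TriPart P.A h n := by
  unfold Pat.ok at hP
  simp only [Bool.and_eq_true, decide_eq_true_eq, List.all_eq_true] at hP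
  obtain ⟨⟨⟨h1, h2⟩, h3⟩, h4⟩ := hP
  have hnn : ∀ F ∈ P.fams, 0 ≤ F.n.ev (s : ℤ) := by
    intro F hF
    have := LF.le_ev hs (h4 F hF)
    unfold LF.ev at this ⊢
    simpa using this
  refine ⟨P.T s, ?_, hn, ?_⟩
  · have hl := Pat.length_T_aux (s : ℤ) P.fams hnn
    have hl2 : (((P.T s).length : ℕ) : ℤ) = (P.fams.map fun F => F.n.a).sum * s +
        (P.fams.map fun F => F.n.b).sum + P.spor.length := by
      unfold Pat.T
      rw [List.length_append, List.length_map]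
      push_cast
      rw [hl]
    have e1 : P.h.a * (s : ℤ) = 3 * ((P.fams.map fun F => F.n.a).sum * s) := by
      rw [← h2]
      ring
    have : (3 : ℤ) * (P.T s).length = 3 * n := by
      rw [hl2]
      have hn' : (P.A.length : ℤ) + 3 * n = h := by exact_mod_cast hn
      linarith
    omega
  · intro y hy1 hy2
    refine Pat.cov_chk hs P.cert ⟨0, 1⟩ h1 y ?_ ?_
    · show 0 * (s : ℤ) + 1 ≤ y
      omega
    · show y ≤ P.h.a * (s : ℤ) + P.h.b
      omega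

/-- a checker for explicit partitions -/
def triOk (A : List ℤ) (h : ℕ) (T : List (ℤ × ℤ)) : Bool :=
  decide (A.length + 3 * T.length = h) &&
    (List.range h).all fun i => decide (((i : ℤ) + 1) ∈ A ++ T.flatMap els)

theorem triPart_of_ok {A : List ℤ} {h n : ℕ} (T : List (ℤ × ℤ)) (hT : T.length = n)
    (hok : triOk A h T = true) : TriPart A h n := by
  unfold triOk at hok
  rw [Bool.and_eq_true, decide_eq_true_eq, List.all_eq_true] at hok
  refine ⟨T, hT, by rw [← hT]; exact hok.1, fun y h1 h2 => ?_⟩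
  have := hok.2 (y - 1).toNat (by rw [List.mem_range]; omega)
  rw [decide_eq_true_eq, List.mem_append, mem_flatMap_els] at this
  have e : (((y - 1).toNat : ℕ) : ℤ) + 1 = y := by omega
  rw [e] at this
  exact this

end Pool.Agent.helper9.SV
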