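import Pool.Agent.helper9.SV.Pat

/-!
# Twelve partitions into triples depending linearly on a parameter
-/

namespace Pool.Agent.helper9.SV

def f0_0 : Fam := ⟨⟨0, 11⟩, ⟨10, -10⟩, ⟨2, -7⟩⟩
def f0_1 : Fam := ⟨⟨0, 12⟩, ⟨6, -8⟩, ⟨1, -4⟩⟩
def f0_2 : Fam := ⟨⟨2, 6⟩, ⟨5, -5⟩, ⟨1, -3⟩⟩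

/-- `h = 12 s + 0` -/
def pat0 : Pat where
  A := [1, 2, 4, 8, 9, 10]
  fams := [f0_0, f0_1, f0_2]
  spor := [
    (⟨2, 4⟩, ⟨10, -4⟩), (⟨6, -4⟩, ⟨6, 3⟩), (⟨6, -3⟩, ⟨6, 1⟩), (⟨6, -2⟩, ⟨6, -1⟩),
    (⟨5, -4⟩, ⟨7, 0⟩), (⟨6, -7⟩, ⟨6, 2⟩), (⟨6, -6⟩, ⟨6, 0⟩), (⟨0, 5⟩, ⟨10, -5⟩),
    (⟨0, 6⟩, ⟨10, -7⟩), (⟨0, 7⟩, ⟨10, -9⟩), (⟨0, 3⟩, ⟨10, -6⟩), (⟨4, -3⟩, ⟨6, -5⟩)]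
  h := ⟨12, 0⟩
  s0 := 5
  cert := [
    (⟨0, 1⟩, .core), (⟨0, 2⟩, .core), (⟨0, 3⟩, .s0 (⟨0, 3⟩, ⟨10, -6⟩)), (⟨0, 4⟩, .core),
    (⟨0, 5⟩, .s0 (⟨0, 5⟩, ⟨10, -5⟩)), (⟨0, 6⟩, .s0 (⟨0, 6⟩, ⟨10, -7⟩)),
    (⟨0, 7⟩, .s0 (⟨0, 7⟩, ⟨10, -9⟩)), (⟨0, 8⟩, .core), (⟨0, 9⟩, .core), (⟨0, 10⟩, .core),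
    (⟨2, 3⟩, .xx f0_0 f0_1), (⟨2, 4⟩, .s0 (⟨2, 4⟩, ⟨10, -4⟩)), (⟨4, -4⟩, .xx f0_0 f0_2),
    (⟨4, -3⟩, .s0 (⟨4, -3⟩, ⟨6, -5⟩)), (⟨4, -2⟩, .x1 f0_2), (⟨5, -5⟩, .yr f0_2),
    (⟨5, -4⟩, .s0 (⟨5, -4⟩, ⟨7, 0⟩)), (⟨6, -8⟩, .yr f0_1), (⟨6, -7⟩, .s0 (⟨6, -7⟩, ⟨6, 2⟩)),
    (⟨6, -6⟩, .s0 (⟨6, -6⟩, ⟨6, 0⟩)), (⟨6, -5⟩, .s1 (⟨4, -3⟩, ⟨6, -5⟩)),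
    (⟨6, -4⟩, .s0 (⟨6, -4⟩, ⟨6, 3⟩)), (⟨6, -3⟩, .s0 (⟨6, -3⟩, ⟨6, 1⟩)),
    (⟨6, -2⟩, .s0 (⟨6, -2⟩, ⟨6, -1⟩)), (⟨6, -1⟩, .s1 (⟨6, -2⟩, ⟨6, -1⟩)),
    (⟨6, 0⟩, .s1 (⟨6, -6⟩, ⟨6, 0⟩)), (⟨6, 1⟩, .s1 (⟨6, -3⟩, ⟨6, 1⟩)),
    (⟨6, 2⟩, .s1 (⟨6, -7⟩, ⟨6, 2⟩)), (⟨6, 3⟩, .s1 (⟨6, -4⟩, ⟨6, 3⟩)), (⟨7, -1⟩, .zr f0_1),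
    (⟨7, 0⟩, .s1 (⟨5, -4⟩, ⟨7, 0⟩)), (⟨8, -3⟩, .zr f0_2), (⟨10, -10⟩, .yr f0_0),
    (⟨10, -9⟩, .s1 (⟨0, 7⟩, ⟨10, -9⟩)), (⟨10, -8⟩, .s2 (⟨4, -3⟩, ⟨6, -5⟩)),
    (⟨10, -7⟩, .s1 (⟨0, 6⟩, ⟨10, -7⟩)), (⟨10, -6⟩, .s1 (⟨0, 3⟩, ⟨10, -6⟩)),
    (⟨10, -5⟩, .s1 (⟨0, 5⟩, ⟨10, -5⟩)), (⟨10, -4⟩, .s1 (⟨2, 4⟩, ⟨10, -4⟩)),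
    (⟨10, -3⟩, .s2 (⟨0, 3⟩, ⟨10, -6⟩)), (⟨10, -2⟩, .s2 (⟨0, 7⟩, ⟨10, -9⟩)),
    (⟨10, -1⟩, .s2 (⟨0, 6⟩, ⟨10, -7⟩)), (⟨10, 0⟩, .s2 (⟨0, 5⟩, ⟨10, -5⟩)),
    (⟨12, -7⟩, .zr f0_0), (⟨12, -6⟩, .s2 (⟨6, -6⟩, ⟨6, 0⟩)), (⟨12, -5⟩, .s2 (⟨6, -7⟩, ⟨6, 2⟩)),
    (⟨12, -4⟩, .s2 (⟨5, -4⟩, ⟨7, 0⟩)), (⟨12, -3⟩, .s2 (⟨6, -2⟩, ⟨6, -1⟩)),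
    (⟨12, -2⟩, .s2 (⟨6, -3⟩, ⟨6, 1⟩)), (⟨12, -1⟩, .s2 (⟨6, -4⟩, ⟨6, 3⟩)),
    (⟨12, 0⟩, .s2 (⟨2, 4⟩, ⟨10, -4⟩))]

theorem pat0_ok : pat0.ok = true := by decide +kernel

def f1_0 : Fam := ⟨⟨0, 4⟩, ⟨10, -4⟩, ⟨2, -2⟩⟩
def f1_1 : Fam := ⟨⟨0, 7⟩, ⟨6, -4⟩, ⟨1, -2⟩⟩
def f1_2 : Fam := ⟨⟨2, 5⟩, ⟨5, -3⟩, ⟨1, -3⟩⟩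

/-- `h = 12 s + 1` -/
def pat1 : Pat where
  A := [1, 2, 3, 5]
  fams := [f1_0, f1_1, f1_2]
  spor := [
    (⟨6, -1⟩, ⟨6, 2⟩), (⟨2, 3⟩, ⟨10, -3⟩), (⟨5, -2⟩, ⟨7, 1⟩), (⟨6, -3⟩, ⟨6, 1⟩),
    (⟨4, -1⟩, ⟨6, 0⟩), (⟨4, 0⟩, ⟨6, -2⟩)]
  h := ⟨12, 1⟩
  s0 := 4
  cert := [
    (⟨0, 1⟩, .core), (⟨0, 2⟩, .core), (⟨0, 3⟩, .core), (⟨0, 4⟩, .x1 f1_0), (⟨0, 5⟩, .core),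
    (⟨2, 2⟩, .xx f1_0 f1_1), (⟨2, 3⟩, .s0 (⟨2, 3⟩, ⟨10, -3⟩)), (⟨4, -2⟩, .xx f1_0 f1_2),
    (⟨4, -1⟩, .s0 (⟨4, -1⟩, ⟨6, 0⟩)), (⟨4, 0⟩, .s0 (⟨4, 0⟩, ⟨6, -2⟩)), (⟨5, -3⟩, .yr f1_2),
    (⟨5, -2⟩, .s0 (⟨5, -2⟩, ⟨7, 1⟩)), (⟨6, -4⟩, .yr f1_1), (⟨6, -3⟩, .s0 (⟨6, -3⟩, ⟨6, 1⟩)),
    (⟨6, -2⟩, .s1 (⟨4, 0⟩, ⟨6, -2⟩)), (⟨6, -1⟩, .s0 (⟨6, -1⟩, ⟨6, 2⟩)),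
    (⟨6, 0⟩, .s1 (⟨4, -1⟩, ⟨6, 0⟩)), (⟨6, 1⟩, .s1 (⟨6, -3⟩, ⟨6, 1⟩)),
    (⟨6, 2⟩, .s1 (⟨6, -1⟩, ⟨6, 2⟩)), (⟨7, 0⟩, .zr f1_1), (⟨7, 1⟩, .s1 (⟨5, -2⟩, ⟨7, 1⟩)),
    (⟨8, -2⟩, .zr f1_2), (⟨10, -4⟩, .yr f1_0), (⟨10, -3⟩, .s1 (⟨2, 3⟩, ⟨10, -3⟩)),
    (⟨10, -2⟩, .s2 (⟨4, 0⟩, ⟨6, -2⟩)), (⟨10, -1⟩, .s2 (⟨4, -1⟩, ⟨6, 0⟩)), (⟨12, -3⟩, .zr f1_0),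
    (⟨12, -2⟩, .s2 (⟨6, -3⟩, ⟨6, 1⟩)), (⟨12, -1⟩, .s2 (⟨5, -2⟩, ⟨7, 1⟩)),
    (⟨12, 0⟩, .s2 (⟨2, 3⟩, ⟨10, -3⟩)), (⟨12, 1⟩, .s2 (⟨6, -1⟩, ⟨6, 2⟩))]

theorem pat1_ok : pat1.ok = true := by decide +kernel

def f2_0 : Fam := ⟨⟨0, 6⟩, ⟨10, -3⟩, ⟨2, -2⟩⟩
def f2_1 : Fam := ⟨⟨0, 9⟩, ⟨6, -4⟩, ⟨1, -4⟩⟩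
def f2_2 : Fam := ⟨⟨2, 3⟩, ⟨5, -1⟩, ⟨1, -3⟩⟩

/-- `h = 12 s + 2` -/
def pat2 : Pat where
  A := [1, 2, 3, 4, 7]
  fams := [f2_0, f2_1, f2_2]
  spor := [
    (⟨6, 0⟩, ⟨6, 2⟩), (⟨5, 0⟩, ⟨7, 1⟩), (⟨4, 1⟩, ⟨6, 1⟩), (⟨4, -3⟩, ⟨6, 4⟩), (⟨2, 1⟩, ⟨8, -1⟩),
    (⟨4, 2⟩, ⟨6, -3⟩), (⟨4, -1⟩, ⟨6, -1⟩), (⟨0, 5⟩, ⟨6, -2⟩)]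
  h := ⟨12, 2⟩
  s0 := 5
  cert := [
    (⟨0, 1⟩, .core), (⟨0, 2⟩, .core), (⟨0, 3⟩, .core), (⟨0, 4⟩, .core),
    (⟨0, 5⟩, .s0 (⟨0, 5⟩, ⟨6, -2⟩)), (⟨0, 6⟩, .x1 f2_0), (⟨0, 7⟩, .core),
    (⟨2, 0⟩, .xx f2_0 f2_1), (⟨2, 1⟩, .s0 (⟨2, 1⟩, ⟨8, -1⟩)), (⟨4, -4⟩, .xx f2_0 f2_2),
    (⟨4, -3⟩, .s0 (⟨4, -3⟩, ⟨6, 4⟩)), (⟨4, -2⟩, .x1 f2_0), (⟨4, -1⟩, .s0 (⟨4, -1⟩, ⟨6, -1⟩)),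
    (⟨4, 0⟩, .x1 f2_0), (⟨4, 1⟩, .s0 (⟨4, 1⟩, ⟨6, 1⟩)), (⟨4, 2⟩, .s0 (⟨4, 2⟩, ⟨6, -3⟩)),
    (⟨5, -1⟩, .yr f2_2), (⟨5, 0⟩, .s0 (⟨5, 0⟩, ⟨7, 1⟩)), (⟨6, -4⟩, .yr f2_1),
    (⟨6, -3⟩, .s1 (⟨4, 2⟩, ⟨6, -3⟩)), (⟨6, -2⟩, .s1 (⟨0, 5⟩, ⟨6, -2⟩)),
    (⟨6, -1⟩, .s1 (⟨4, -1⟩, ⟨6, -1⟩)), (⟨6, 0⟩, .s0 (⟨6, 0⟩, ⟨6, 2⟩)),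
    (⟨6, 1⟩, .s1 (⟨4, 1⟩, ⟨6, 1⟩)), (⟨6, 2⟩, .s1 (⟨6, 0⟩, ⟨6, 2⟩)),
    (⟨6, 3⟩, .s2 (⟨0, 5⟩, ⟨6, -2⟩)), (⟨6, 4⟩, .s1 (⟨4, -3⟩, ⟨6, 4⟩)), (⟨7, 0⟩, .zr f2_1),
    (⟨7, 1⟩, .s1 (⟨5, 0⟩, ⟨7, 1⟩)), (⟨8, -2⟩, .zr f2_2), (⟨8, -1⟩, .s1 (⟨2, 1⟩, ⟨8, -1⟩)),
    (⟨10, -3⟩, .yr f2_0), (⟨10, -2⟩, .s2 (⟨4, -1⟩, ⟨6, -1⟩)),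
    (⟨10, -1⟩, .s2 (⟨4, 2⟩, ⟨6, -3⟩)), (⟨10, 0⟩, .s2 (⟨2, 1⟩, ⟨8, -1⟩)),
    (⟨10, 1⟩, .s2 (⟨4, -3⟩, ⟨6, 4⟩)), (⟨10, 2⟩, .s2 (⟨4, 1⟩, ⟨6, 1⟩)), (⟨12, 0⟩, .zr f2_0),
    (⟨12, 1⟩, .s2 (⟨5, 0⟩, ⟨7, 1⟩)), (⟨12, 2⟩, .s2 (⟨6, 0⟩, ⟨6, 2⟩))]

theorem pat2_ok : pat2.ok = true := by decide +kernel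

def f3_0 : Fam := ⟨⟨0, 11⟩, ⟨10, -7⟩, ⟨2, -5⟩⟩
def f3_1 : Fam := ⟨⟨0, 12⟩, ⟨6, -6⟩, ⟨1, -7⟩⟩
def f3_2 : Fam := ⟨⟨2, 0⟩, ⟨5, 0⟩, ⟨1, -1⟩⟩

/-- `h = 12 s + 3` -/
def pat3 : Pat where
  A := [1, 2, 4, 8, 9, 10]
  fams := [f3_0, f3_1, f3_2]
  spor := [
    (⟨6, -2⟩, ⟨6, 5⟩), (⟨6, -1⟩, ⟨6, 3⟩), (⟨2, -2⟩, ⟨10, 3⟩), (⟨5, 1⟩, ⟨7, -1⟩),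
    (⟨6, -5⟩, ⟨6, 4⟩), (⟨0, 6⟩, ⟨10, -4⟩), (⟨0, 7⟩, ⟨10, -6⟩), (⟨4, 0⟩, ⟨6, 0⟩),
    (⟨4, -2⟩, ⟨6, 1⟩), (⟨0, 3⟩, ⟨10, -5⟩), (⟨4, 1⟩, ⟨6, -4⟩), (⟨0, 5⟩, ⟨6, -3⟩)]
  h := ⟨12, 3⟩
  s0 := 8
  cert := [
    (⟨0, 1⟩, .core), (⟨0, 2⟩, .core), (⟨0, 3⟩, .s0 (⟨0, 3⟩, ⟨10, -5⟩)), (⟨0, 4⟩, .core),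
    (⟨0, 5⟩, .s0 (⟨0, 5⟩, ⟨6, -3⟩)), (⟨0, 6⟩, .s0 (⟨0, 6⟩, ⟨10, -4⟩)),
    (⟨0, 7⟩, .s0 (⟨0, 7⟩, ⟨10, -6⟩)), (⟨0, 8⟩, .core), (⟨0, 9⟩, .core), (⟨0, 10⟩, .core),
    (⟨2, -3⟩, .xx f3_0 f3_1), (⟨2, -2⟩, .s0 (⟨2, -2⟩, ⟨10, 3⟩)), (⟨4, -3⟩, .xx f3_0 f3_2),
    (⟨4, -2⟩, .s0 (⟨4, -2⟩, ⟨6, 1⟩)), (⟨4, -1⟩, .x1 f3_0), (⟨4, 0⟩, .s0 (⟨4, 0⟩, ⟨6, 0⟩)),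
    (⟨4, 1⟩, .s0 (⟨4, 1⟩, ⟨6, -4⟩)), (⟨5, 0⟩, .yr f3_2), (⟨5, 1⟩, .s0 (⟨5, 1⟩, ⟨7, -1⟩)),
    (⟨6, -6⟩, .yr f3_1), (⟨6, -5⟩, .s0 (⟨6, -5⟩, ⟨6, 4⟩)), (⟨6, -4⟩, .s1 (⟨4, 1⟩, ⟨6, -4⟩)),
    (⟨6, -3⟩, .s1 (⟨0, 5⟩, ⟨6, -3⟩)), (⟨6, -2⟩, .s0 (⟨6, -2⟩, ⟨6, 5⟩)),
    (⟨6, -1⟩, .s0 (⟨6, -1⟩, ⟨6, 3⟩)), (⟨6, 0⟩, .s1 (⟨4, 0⟩, ⟨6, 0⟩)),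
    (⟨6, 1⟩, .s1 (⟨4, -2⟩, ⟨6, 1⟩)), (⟨6, 2⟩, .s2 (⟨0, 5⟩, ⟨6, -3⟩)),
    (⟨6, 3⟩, .s1 (⟨6, -1⟩, ⟨6, 3⟩)), (⟨6, 4⟩, .s1 (⟨6, -5⟩, ⟨6, 4⟩)),
    (⟨6, 5⟩, .s1 (⟨6, -2⟩, ⟨6, 5⟩)), (⟨7, -2⟩, .zr f3_1), (⟨7, -1⟩, .s1 (⟨5, 1⟩, ⟨7, -1⟩)),
    (⟨8, -2⟩, .zr f3_2), (⟨10, -7⟩, .yr f3_0), (⟨10, -6⟩, .s1 (⟨0, 7⟩, ⟨10, -6⟩)),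
    (⟨10, -5⟩, .s1 (⟨0, 3⟩, ⟨10, -5⟩)), (⟨10, -4⟩, .s1 (⟨0, 6⟩, ⟨10, -4⟩)),
    (⟨10, -3⟩, .s2 (⟨4, 1⟩, ⟨6, -4⟩)), (⟨10, -2⟩, .s2 (⟨0, 3⟩, ⟨10, -5⟩)),
    (⟨10, -1⟩, .s2 (⟨4, -2⟩, ⟨6, 1⟩)), (⟨10, 0⟩, .s2 (⟨4, 0⟩, ⟨6, 0⟩)),
    (⟨10, 1⟩, .s2 (⟨0, 7⟩, ⟨10, -6⟩)), (⟨10, 2⟩, .s2 (⟨0, 6⟩, ⟨10, -4⟩)),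
    (⟨10, 3⟩, .s1 (⟨2, -2⟩, ⟨10, 3⟩)), (⟨12, -2⟩, .zr f3_0), (⟨12, -1⟩, .s2 (⟨6, -5⟩, ⟨6, 4⟩)),
    (⟨12, 0⟩, .s2 (⟨5, 1⟩, ⟨7, -1⟩)), (⟨12, 1⟩, .s2 (⟨2, -2⟩, ⟨10, 3⟩)),
    (⟨12, 2⟩, .s2 (⟨6, -1⟩, ⟨6, 3⟩)), (⟨12, 3⟩, .s2 (⟨6, -2⟩, ⟨6, 5⟩))]

theorem pat3_ok : pat3.ok = true := by decide +kernel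

def f4_0 : Fam := ⟨⟨0, 5⟩, ⟨10, -2⟩, ⟨2, -1⟩⟩
def f4_1 : Fam := ⟨⟨0, 6⟩, ⟨6, -2⟩, ⟨1, -2⟩⟩
def f4_2 : Fam := ⟨⟨2, 4⟩, ⟨5, -1⟩, ⟨1, -3⟩⟩

/-- `h = 12 s + 4` -/
def pat4 : Pat where
  A := [1, 2, 3, 4]
  fams := [f4_0, f4_1, f4_2]
  spor := [
    (⟨6, 1⟩, ⟨6, 3⟩), (⟨2, 2⟩, ⟨10, 1⟩), (⟨5, 0⟩, ⟨7, 2⟩), (⟨4, 2⟩, ⟨6, 0⟩), (⟨4, -2⟩, ⟨6, 2⟩),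
    (⟨4, 0⟩, ⟨6, -1⟩)]
  h := ⟨12, 4⟩
  s0 := 4
  cert := [
    (⟨0, 1⟩, .core), (⟨0, 2⟩, .core), (⟨0, 3⟩, .core), (⟨0, 4⟩, .core),
    (⟨2, 1⟩, .xx f4_0 f4_1), (⟨2, 2⟩, .s0 (⟨2, 2⟩, ⟨10, 1⟩)), (⟨4, -3⟩, .xx f4_0 f4_2),
    (⟨4, -2⟩, .s0 (⟨4, -2⟩, ⟨6, 2⟩)), (⟨4, -1⟩, .x1 f4_0), (⟨4, 0⟩, .s0 (⟨4, 0⟩, ⟨6, -1⟩)),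
    (⟨4, 1⟩, .x1 f4_0), (⟨4, 2⟩, .s0 (⟨4, 2⟩, ⟨6, 0⟩)), (⟨5, -1⟩, .yr f4_2),
    (⟨5, 0⟩, .s0 (⟨5, 0⟩, ⟨7, 2⟩)), (⟨6, -2⟩, .yr f4_1), (⟨6, -1⟩, .s1 (⟨4, 0⟩, ⟨6, -1⟩)),
    (⟨6, 0⟩, .s1 (⟨4, 2⟩, ⟨6, 0⟩)), (⟨6, 1⟩, .s0 (⟨6, 1⟩, ⟨6, 3⟩)),
    (⟨6, 2⟩, .s1 (⟨4, -2⟩, ⟨6, 2⟩)), (⟨6, 3⟩, .s1 (⟨6, 1⟩, ⟨6, 3⟩)), (⟨7, 1⟩, .zr f4_1),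
    (⟨7, 2⟩, .s1 (⟨5, 0⟩, ⟨7, 2⟩)), (⟨8, -1⟩, .zr f4_2), (⟨10, -2⟩, .yr f4_0),
    (⟨10, -1⟩, .s2 (⟨4, 0⟩, ⟨6, -1⟩)), (⟨10, 0⟩, .s2 (⟨4, -2⟩, ⟨6, 2⟩)),
    (⟨10, 1⟩, .s1 (⟨2, 2⟩, ⟨10, 1⟩)), (⟨10, 2⟩, .s2 (⟨4, 2⟩, ⟨6, 0⟩)), (⟨12, 1⟩, .zr f4_0),
    (⟨12, 2⟩, .s2 (⟨5, 0⟩, ⟨7, 2⟩)), (⟨12, 3⟩, .s2 (⟨2, 2⟩, ⟨10, 1⟩)),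
    (⟨12, 4⟩, .s2 (⟨6, 1⟩, ⟨6, 3⟩))]

theorem pat4_ok : pat4.ok = true := by decide +kernel

def f5_0 : Fam := ⟨⟨0, 6⟩, ⟨10, -2⟩, ⟨2, -1⟩⟩
def f5_1 : Fam := ⟨⟨0, 9⟩, ⟨6, -3⟩, ⟨1, -4⟩⟩
def f5_2 : Fam := ⟨⟨2, 3⟩, ⟨5, 0⟩, ⟨1, -3⟩⟩

/-- `h = 12 s + 5` -/
def pat5 : Pat where
  A := [1, 2, 3, 4, 7]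
  fams := [f5_0, f5_1, f5_2]
  spor := [
    (⟨6, 1⟩, ⟨6, 4⟩), (⟨2, 1⟩, ⟨10, 3⟩), (⟨5, 1⟩, ⟨7, 2⟩), (⟨4, -1⟩, ⟨6, 3⟩),
    (⟨4, 3⟩, ⟨6, -2⟩), (⟨4, 1⟩, ⟨6, -1⟩), (⟨4, -3⟩, ⟨6, 2⟩), (⟨0, 5⟩, ⟨6, 0⟩)]
  h := ⟨12, 5⟩
  s0 := 5
  cert := [
    (⟨0, 1⟩, .core), (⟨0, 2⟩, .core), (⟨0, 3⟩, .core), (⟨0, 4⟩, .core),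
    (⟨0, 5⟩, .s0 (⟨0, 5⟩, ⟨6, 0⟩)), (⟨0, 6⟩, .x1 f5_0), (⟨0, 7⟩, .core),
    (⟨2, 0⟩, .xx f5_0 f5_1), (⟨2, 1⟩, .s0 (⟨2, 1⟩, ⟨10, 3⟩)), (⟨4, -4⟩, .xx f5_0 f5_2),
    (⟨4, -3⟩, .s0 (⟨4, -3⟩, ⟨6, 2⟩)), (⟨4, -2⟩, .x1 f5_0), (⟨4, -1⟩, .s0 (⟨4, -1⟩, ⟨6, 3⟩)),
    (⟨4, 0⟩, .x1 f5_0), (⟨4, 1⟩, .s0 (⟨4, 1⟩, ⟨6, -1⟩)), (⟨4, 2⟩, .x1 f5_0),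
    (⟨4, 3⟩, .s0 (⟨4, 3⟩, ⟨6, -2⟩)), (⟨5, 0⟩, .yr f5_2), (⟨5, 1⟩, .s0 (⟨5, 1⟩, ⟨7, 2⟩)),
    (⟨6, -3⟩, .yr f5_1), (⟨6, -2⟩, .s1 (⟨4, 3⟩, ⟨6, -2⟩)), (⟨6, -1⟩, .s1 (⟨4, 1⟩, ⟨6, -1⟩)),
    (⟨6, 0⟩, .s1 (⟨0, 5⟩, ⟨6, 0⟩)), (⟨6, 1⟩, .s0 (⟨6, 1⟩, ⟨6, 4⟩)),
    (⟨6, 2⟩, .s1 (⟨4, -3⟩, ⟨6, 2⟩)), (⟨6, 3⟩, .s1 (⟨4, -1⟩, ⟨6, 3⟩)),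
    (⟨6, 4⟩, .s1 (⟨6, 1⟩, ⟨6, 4⟩)), (⟨6, 5⟩, .s2 (⟨0, 5⟩, ⟨6, 0⟩)), (⟨7, 1⟩, .zr f5_1),
    (⟨7, 2⟩, .s1 (⟨5, 1⟩, ⟨7, 2⟩)), (⟨8, -1⟩, .zr f5_2), (⟨10, -2⟩, .yr f5_0),
    (⟨10, -1⟩, .s2 (⟨4, -3⟩, ⟨6, 2⟩)), (⟨10, 0⟩, .s2 (⟨4, 1⟩, ⟨6, -1⟩)),
    (⟨10, 1⟩, .s2 (⟨4, 3⟩, ⟨6, -2⟩)), (⟨10, 2⟩, .s2 (⟨4, -1⟩, ⟨6, 3⟩)),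
    (⟨10, 3⟩, .s1 (⟨2, 1⟩, ⟨10, 3⟩)), (⟨12, 2⟩, .zr f5_0), (⟨12, 3⟩, .s2 (⟨5, 1⟩, ⟨7, 2⟩)),
    (⟨12, 4⟩, .s2 (⟨2, 1⟩, ⟨10, 3⟩)), (⟨12, 5⟩, .s2 (⟨6, 1⟩, ⟨6, 4⟩))]

theorem pat5_ok : pat5.ok = true := by decide +kernel

def f6_0 : Fam := ⟨⟨0, 8⟩, ⟨10, -3⟩, ⟨2, -2⟩⟩
def f6_1 : Fam := ⟨⟨0, 9⟩, ⟨6, -3⟩, ⟨1, -4⟩⟩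
def f6_2 : Fam := ⟨⟨2, 3⟩, ⟨5, 0⟩, ⟨1, -3⟩⟩

/-- `h = 12 s + 6` -/
def pat6 : Pat where
  A := [1, 2, 3, 4, 6, 7]
  fams := [f6_0, f6_1, f6_2]
  spor := [
    (⟨6, 1⟩, ⟨6, 5⟩), (⟨2, 1⟩, ⟨10, 4⟩), (⟨6, 0⟩, ⟨6, 4⟩), (⟨5, 1⟩, ⟨7, 2⟩),
    (⟨0, 5⟩, ⟨10, -2⟩), (⟨4, -1⟩, ⟨6, 3⟩), (⟨4, 3⟩, ⟨6, -2⟩), (⟨4, 1⟩, ⟨6, -1⟩),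
    (⟨4, -3⟩, ⟨6, 2⟩)]
  h := ⟨12, 6⟩
  s0 := 5
  cert := [
    (⟨0, 1⟩, .core), (⟨0, 2⟩, .core), (⟨0, 3⟩, .core), (⟨0, 4⟩, .core),
    (⟨0, 5⟩, .s0 (⟨0, 5⟩, ⟨10, -2⟩)), (⟨0, 6⟩, .core), (⟨0, 7⟩, .core),
    (⟨2, 0⟩, .xx f6_0 f6_1), (⟨2, 1⟩, .s0 (⟨2, 1⟩, ⟨10, 4⟩)), (⟨4, -4⟩, .xx f6_0 f6_2),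
    (⟨4, -3⟩, .s0 (⟨4, -3⟩, ⟨6, 2⟩)), (⟨4, -2⟩, .x1 f6_0), (⟨4, -1⟩, .s0 (⟨4, -1⟩, ⟨6, 3⟩)),
    (⟨4, 0⟩, .x1 f6_0), (⟨4, 1⟩, .s0 (⟨4, 1⟩, ⟨6, -1⟩)), (⟨4, 2⟩, .x1 f6_0),
    (⟨4, 3⟩, .s0 (⟨4, 3⟩, ⟨6, -2⟩)), (⟨5, 0⟩, .yr f6_2), (⟨5, 1⟩, .s0 (⟨5, 1⟩, ⟨7, 2⟩)),
    (⟨6, -3⟩, .yr f6_1), (⟨6, -2⟩, .s1 (⟨4, 3⟩, ⟨6, -2⟩)), (⟨6, -1⟩, .s1 (⟨4, 1⟩, ⟨6, -1⟩)),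
    (⟨6, 0⟩, .s0 (⟨6, 0⟩, ⟨6, 4⟩)), (⟨6, 1⟩, .s0 (⟨6, 1⟩, ⟨6, 5⟩)),
    (⟨6, 2⟩, .s1 (⟨4, -3⟩, ⟨6, 2⟩)), (⟨6, 3⟩, .s1 (⟨4, -1⟩, ⟨6, 3⟩)),
    (⟨6, 4⟩, .s1 (⟨6, 0⟩, ⟨6, 4⟩)), (⟨6, 5⟩, .s1 (⟨6, 1⟩, ⟨6, 5⟩)), (⟨7, 1⟩, .zr f6_1),
    (⟨7, 2⟩, .s1 (⟨5, 1⟩, ⟨7, 2⟩)), (⟨8, -1⟩, .zr f6_2), (⟨10, -3⟩, .yr f6_0),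
    (⟨10, -2⟩, .s1 (⟨0, 5⟩, ⟨10, -2⟩)), (⟨10, -1⟩, .s2 (⟨4, -3⟩, ⟨6, 2⟩)),
    (⟨10, 0⟩, .s2 (⟨4, 1⟩, ⟨6, -1⟩)), (⟨10, 1⟩, .s2 (⟨4, 3⟩, ⟨6, -2⟩)),
    (⟨10, 2⟩, .s2 (⟨4, -1⟩, ⟨6, 3⟩)), (⟨10, 3⟩, .s2 (⟨0, 5⟩, ⟨10, -2⟩)),
    (⟨10, 4⟩, .s1 (⟨2, 1⟩, ⟨10, 4⟩)), (⟨12, 2⟩, .zr f6_0), (⟨12, 3⟩, .s2 (⟨5, 1⟩, ⟨7, 2⟩)),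
    (⟨12, 4⟩, .s2 (⟨6, 0⟩, ⟨6, 4⟩)), (⟨12, 5⟩, .s2 (⟨2, 1⟩, ⟨10, 4⟩)),
    (⟨12, 6⟩, .s2 (⟨6, 1⟩, ⟨6, 5⟩))]

theorem pat6_ok : pat6.ok = true := by decide +kernel

def f7_0 : Fam := ⟨⟨0, 5⟩, ⟨10, 2⟩, ⟨2, -1⟩⟩
def f7_1 : Fam := ⟨⟨0, 6⟩, ⟨6, 0⟩, ⟨1, -2⟩⟩
def f7_2 : Fam := ⟨⟨2, 4⟩, ⟨5, 1⟩, ⟨1, -2⟩⟩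

/-- `h = 12 s + 7` -/
def pat7 : Pat where
  A := [1, 2, 3, 4]
  fams := [f7_0, f7_1, f7_2]
  spor := [
    (⟨6, 2⟩, ⟨6, 5⟩), (⟨5, 2⟩, ⟨7, 4⟩), (⟨4, 2⟩, ⟨6, 4⟩), (⟨2, 2⟩, ⟨8, 3⟩), (⟨4, 3⟩, ⟨6, 1⟩),
    (⟨4, 0⟩, ⟨6, 3⟩)]
  h := ⟨12, 7⟩
  s0 := 3
  cert := [
    (⟨0, 1⟩, .core), (⟨0, 2⟩, .core), (⟨0, 3⟩, .core), (⟨0, 4⟩, .core),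
    (⟨2, 1⟩, .xx f7_0 f7_1), (⟨2, 2⟩, .s0 (⟨2, 2⟩, ⟨8, 3⟩)), (⟨4, -1⟩, .xx f7_0 f7_2),
    (⟨4, 0⟩, .s0 (⟨4, 0⟩, ⟨6, 3⟩)), (⟨4, 1⟩, .x1 f7_0), (⟨4, 2⟩, .s0 (⟨4, 2⟩, ⟨6, 4⟩)),
    (⟨4, 3⟩, .s0 (⟨4, 3⟩, ⟨6, 1⟩)), (⟨5, 1⟩, .yr f7_2), (⟨5, 2⟩, .s0 (⟨5, 2⟩, ⟨7, 4⟩)),
    (⟨6, 0⟩, .yr f7_1), (⟨6, 1⟩, .s1 (⟨4, 3⟩, ⟨6, 1⟩)), (⟨6, 2⟩, .s0 (⟨6, 2⟩, ⟨6, 5⟩)),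
    (⟨6, 3⟩, .s1 (⟨4, 0⟩, ⟨6, 3⟩)), (⟨6, 4⟩, .s1 (⟨4, 2⟩, ⟨6, 4⟩)),
    (⟨6, 5⟩, .s1 (⟨6, 2⟩, ⟨6, 5⟩)), (⟨7, 3⟩, .zr f7_1), (⟨7, 4⟩, .s1 (⟨5, 2⟩, ⟨7, 4⟩)),
    (⟨8, 2⟩, .zr f7_2), (⟨8, 3⟩, .s1 (⟨2, 2⟩, ⟨8, 3⟩)), (⟨10, 2⟩, .yr f7_0),
    (⟨10, 3⟩, .s2 (⟨4, 0⟩, ⟨6, 3⟩)), (⟨10, 4⟩, .s2 (⟨4, 3⟩, ⟨6, 1⟩)),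
    (⟨10, 5⟩, .s2 (⟨2, 2⟩, ⟨8, 3⟩)), (⟨10, 6⟩, .s2 (⟨4, 2⟩, ⟨6, 4⟩)), (⟨12, 5⟩, .zr f7_0),
    (⟨12, 6⟩, .s2 (⟨5, 2⟩, ⟨7, 4⟩)), (⟨12, 7⟩, .s2 (⟨6, 2⟩, ⟨6, 5⟩))]

theorem pat7_ok : pat7.ok = true := by decide +kernel

def f8_0 : Fam := ⟨⟨0, 7⟩, ⟨10, 0⟩, ⟨2, -2⟩⟩
def f8_1 : Fam := ⟨⟨0, 8⟩, ⟨6, -1⟩, ⟨1, -2⟩⟩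
def f8_2 : Fam := ⟨⟨2, 6⟩, ⟨5, 0⟩, ⟨1, -3⟩⟩

/-- `h = 12 s + 8` -/
def pat8 : Pat where
  A := [1, 2, 4, 5, 6]
  fams := [f8_0, f8_1, f8_2]
  spor := [
    (⟨6, 2⟩, ⟨6, 6⟩), (⟨2, 4⟩, ⟨10, 3⟩), (⟨5, 1⟩, ⟨7, 5⟩), (⟨6, 1⟩, ⟨6, 4⟩), (⟨4, 3⟩, ⟨6, 3⟩),
    (⟨4, 0⟩, ⟨6, 5⟩), (⟨0, 3⟩, ⟨10, 1⟩), (⟨4, 2⟩, ⟨6, 0⟩)]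
  h := ⟨12, 8⟩
  s0 := 4
  cert := [
    (⟨0, 1⟩, .core), (⟨0, 2⟩, .core), (⟨0, 3⟩, .s0 (⟨0, 3⟩, ⟨10, 1⟩)), (⟨0, 4⟩, .core),
    (⟨0, 5⟩, .core), (⟨0, 6⟩, .core), (⟨2, 3⟩, .xx f8_0 f8_1), (⟨2, 4⟩, .s0 (⟨2, 4⟩, ⟨10, 3⟩)),
    (⟨4, -1⟩, .xx f8_0 f8_2), (⟨4, 0⟩, .s0 (⟨4, 0⟩, ⟨6, 5⟩)), (⟨4, 1⟩, .x1 f8_0),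
    (⟨4, 2⟩, .s0 (⟨4, 2⟩, ⟨6, 0⟩)), (⟨4, 3⟩, .s0 (⟨4, 3⟩, ⟨6, 3⟩)), (⟨5, 0⟩, .yr f8_2),
    (⟨5, 1⟩, .s0 (⟨5, 1⟩, ⟨7, 5⟩)), (⟨6, -1⟩, .yr f8_1), (⟨6, 0⟩, .s1 (⟨4, 2⟩, ⟨6, 0⟩)),
    (⟨6, 1⟩, .s0 (⟨6, 1⟩, ⟨6, 4⟩)), (⟨6, 2⟩, .s0 (⟨6, 2⟩, ⟨6, 6⟩)),
    (⟨6, 3⟩, .s1 (⟨4, 3⟩, ⟨6, 3⟩)), (⟨6, 4⟩, .s1 (⟨6, 1⟩, ⟨6, 4⟩)),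
    (⟨6, 5⟩, .s1 (⟨4, 0⟩, ⟨6, 5⟩)), (⟨6, 6⟩, .s1 (⟨6, 2⟩, ⟨6, 6⟩)), (⟨7, 4⟩, .zr f8_1),
    (⟨7, 5⟩, .s1 (⟨5, 1⟩, ⟨7, 5⟩)), (⟨8, 2⟩, .zr f8_2), (⟨10, 0⟩, .yr f8_0),
    (⟨10, 1⟩, .s1 (⟨0, 3⟩, ⟨10, 1⟩)), (⟨10, 2⟩, .s2 (⟨4, 2⟩, ⟨6, 0⟩)),
    (⟨10, 3⟩, .s1 (⟨2, 4⟩, ⟨10, 3⟩)), (⟨10, 4⟩, .s2 (⟨0, 3⟩, ⟨10, 1⟩)),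
    (⟨10, 5⟩, .s2 (⟨4, 0⟩, ⟨6, 5⟩)), (⟨10, 6⟩, .s2 (⟨4, 3⟩, ⟨6, 3⟩)), (⟨12, 4⟩, .zr f8_0),
    (⟨12, 5⟩, .s2 (⟨6, 1⟩, ⟨6, 4⟩)), (⟨12, 6⟩, .s2 (⟨5, 1⟩, ⟨7, 5⟩)),
    (⟨12, 7⟩, .s2 (⟨2, 4⟩, ⟨10, 3⟩)), (⟨12, 8⟩, .s2 (⟨6, 2⟩, ⟨6, 6⟩))]

theorem pat8_ok : pat8.ok = true := by decide +kernel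

def f9_0 : Fam := ⟨⟨0, 8⟩, ⟨10, 0⟩, ⟨2, -2⟩⟩
def f9_1 : Fam := ⟨⟨0, 9⟩, ⟨6, -1⟩, ⟨1, -3⟩⟩
def f9_2 : Fam := ⟨⟨2, 5⟩, ⟨5, 1⟩, ⟨1, -3⟩⟩

/-- `h = 12 s + 9` -/
def pat9 : Pat where
  A := [1, 2, 3, 4, 6, 7]
  fams := [f9_0, f9_1, f9_2]
  spor := [
    (⟨6, 2⟩, ⟨6, 7⟩), (⟨6, 3⟩, ⟨6, 5⟩), (⟨5, 2⟩, ⟨7, 5⟩), (⟨2, 3⟩, ⟨10, 3⟩), (⟨4, 3⟩, ⟨6, 4⟩),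
    (⟨0, 5⟩, ⟨10, 1⟩), (⟨4, -1⟩, ⟨6, 6⟩), (⟨4, 4⟩, ⟨6, 0⟩), (⟨4, 1⟩, ⟨6, 1⟩)]
  h := ⟨12, 9⟩
  s0 := 4
  cert := [
    (⟨0, 1⟩, .core), (⟨0, 2⟩, .core), (⟨0, 3⟩, .core), (⟨0, 4⟩, .core),
    (⟨0, 5⟩, .s0 (⟨0, 5⟩, ⟨10, 1⟩)), (⟨0, 6⟩, .core), (⟨0, 7⟩, .core), (⟨2, 2⟩, .xx f9_0 f9_1),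
    (⟨2, 3⟩, .s0 (⟨2, 3⟩, ⟨10, 3⟩)), (⟨4, -2⟩, .xx f9_0 f9_2),
    (⟨4, -1⟩, .s0 (⟨4, -1⟩, ⟨6, 6⟩)), (⟨4, 0⟩, .x1 f9_0), (⟨4, 1⟩, .s0 (⟨4, 1⟩, ⟨6, 1⟩)),
    (⟨4, 2⟩, .x1 f9_0), (⟨4, 3⟩, .s0 (⟨4, 3⟩, ⟨6, 4⟩)), (⟨4, 4⟩, .s0 (⟨4, 4⟩, ⟨6, 0⟩)),
    (⟨5, 1⟩, .yr f9_2), (⟨5, 2⟩, .s0 (⟨5, 2⟩, ⟨7, 5⟩)), (⟨6, -1⟩, .yr f9_1),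
    (⟨6, 0⟩, .s1 (⟨4, 4⟩, ⟨6, 0⟩)), (⟨6, 1⟩, .s1 (⟨4, 1⟩, ⟨6, 1⟩)),
    (⟨6, 2⟩, .s0 (⟨6, 2⟩, ⟨6, 7⟩)), (⟨6, 3⟩, .s0 (⟨6, 3⟩, ⟨6, 5⟩)),
    (⟨6, 4⟩, .s1 (⟨4, 3⟩, ⟨6, 4⟩)), (⟨6, 5⟩, .s1 (⟨6, 3⟩, ⟨6, 5⟩)),
    (⟨6, 6⟩, .s1 (⟨4, -1⟩, ⟨6, 6⟩)), (⟨6, 7⟩, .s1 (⟨6, 2⟩, ⟨6, 7⟩)), (⟨7, 4⟩, .zr f9_1),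
    (⟨7, 5⟩, .s1 (⟨5, 2⟩, ⟨7, 5⟩)), (⟨8, 2⟩, .zr f9_2), (⟨10, 0⟩, .yr f9_0),
    (⟨10, 1⟩, .s1 (⟨0, 5⟩, ⟨10, 1⟩)), (⟨10, 2⟩, .s2 (⟨4, 1⟩, ⟨6, 1⟩)),
    (⟨10, 3⟩, .s1 (⟨2, 3⟩, ⟨10, 3⟩)), (⟨10, 4⟩, .s2 (⟨4, 4⟩, ⟨6, 0⟩)),
    (⟨10, 5⟩, .s2 (⟨4, -1⟩, ⟨6, 6⟩)), (⟨10, 6⟩, .s2 (⟨0, 5⟩, ⟨10, 1⟩)),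
    (⟨10, 7⟩, .s2 (⟨4, 3⟩, ⟨6, 4⟩)), (⟨12, 5⟩, .zr f9_0), (⟨12, 6⟩, .s2 (⟨2, 3⟩, ⟨10, 3⟩)),
    (⟨12, 7⟩, .s2 (⟨5, 2⟩, ⟨7, 5⟩)), (⟨12, 8⟩, .s2 (⟨6, 3⟩, ⟨6, 5⟩)),
    (⟨12, 9⟩, .s2 (⟨6, 2⟩, ⟨6, 7⟩))]

theorem pat9_ok : pat9.ok = true := by decide +kernel

def f10_0 : Fam := ⟨⟨0, 4⟩, ⟨10, 4⟩, ⟨2, 1⟩⟩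
def f10_1 : Fam := ⟨⟨0, 7⟩, ⟨6, 1⟩, ⟨1, -3⟩⟩
def f10_2 : Fam := ⟨⟨2, 3⟩, ⟨5, 3⟩, ⟨1, -2⟩⟩

/-- `h = 12 s + 10` -/
def pat10 : Pat where
  A := [1, 2, 3, 5]
  fams := [f10_0, f10_1, f10_2]
  spor := [
    (⟨6, 3⟩, ⟨6, 7⟩), (⟨5, 4⟩, ⟨7, 5⟩), (⟨4, 5⟩, ⟨6, 2⟩), (⟨4, 1⟩, ⟨6, 5⟩), (⟨4, -1⟩, ⟨6, 6⟩),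
    (⟨2, 1⟩, ⟨4, 3⟩)]
  h := ⟨12, 10⟩
  s0 := 4
  cert := [
    (⟨0, 1⟩, .core), (⟨0, 2⟩, .core), (⟨0, 3⟩, .core), (⟨0, 4⟩, .x1 f10_0), (⟨0, 5⟩, .core),
    (⟨2, 0⟩, .xx f10_0 f10_1), (⟨2, 1⟩, .s0 (⟨2, 1⟩, ⟨4, 3⟩)), (⟨4, -2⟩, .xx f10_0 f10_2),
    (⟨4, -1⟩, .s0 (⟨4, -1⟩, ⟨6, 6⟩)), (⟨4, 0⟩, .x1 f10_0), (⟨4, 1⟩, .s0 (⟨4, 1⟩, ⟨6, 5⟩)),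
    (⟨4, 2⟩, .x1 f10_0), (⟨4, 3⟩, .s1 (⟨2, 1⟩, ⟨4, 3⟩)), (⟨4, 4⟩, .x1 f10_0),
    (⟨4, 5⟩, .s0 (⟨4, 5⟩, ⟨6, 2⟩)), (⟨5, 3⟩, .yr f10_2), (⟨5, 4⟩, .s0 (⟨5, 4⟩, ⟨7, 5⟩)),
    (⟨6, 1⟩, .yr f10_1), (⟨6, 2⟩, .s1 (⟨4, 5⟩, ⟨6, 2⟩)), (⟨6, 3⟩, .s0 (⟨6, 3⟩, ⟨6, 7⟩)),
    (⟨6, 4⟩, .s2 (⟨2, 1⟩, ⟨4, 3⟩)), (⟨6, 5⟩, .s1 (⟨4, 1⟩, ⟨6, 5⟩)),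
    (⟨6, 6⟩, .s1 (⟨4, -1⟩, ⟨6, 6⟩)), (⟨6, 7⟩, .s1 (⟨6, 3⟩, ⟨6, 7⟩)), (⟨7, 4⟩, .zr f10_1),
    (⟨7, 5⟩, .s1 (⟨5, 4⟩, ⟨7, 5⟩)), (⟨8, 3⟩, .zr f10_2), (⟨10, 4⟩, .yr f10_0),
    (⟨10, 5⟩, .s2 (⟨4, -1⟩, ⟨6, 6⟩)), (⟨10, 6⟩, .s2 (⟨4, 1⟩, ⟨6, 5⟩)),
    (⟨10, 7⟩, .s2 (⟨4, 5⟩, ⟨6, 2⟩)), (⟨12, 8⟩, .zr f10_0), (⟨12, 9⟩, .s2 (⟨5, 4⟩, ⟨7, 5⟩)),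
    (⟨12, 10⟩, .s2 (⟨6, 3⟩, ⟨6, 7⟩))]

theorem pat10_ok : pat10.ok = true := by decide +kernel

def f11_0 : Fam := ⟨⟨0, 7⟩, ⟨10, 2⟩, ⟨2, -1⟩⟩
def f11_1 : Fam := ⟨⟨0, 8⟩, ⟨6, 0⟩, ⟨1, -3⟩⟩
def f11_2 : Fam := ⟨⟨2, 4⟩, ⟨5, 2⟩, ⟨1, -2⟩⟩

/-- `h = 12 s + 11` -/
def pat11 : Pat where
  A := [1, 2, 4, 5, 6]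
  fams := [f11_0, f11_1, f11_2]
  spor := [
    (⟨6, 4⟩, ⟨6, 7⟩), (⟨2, 2⟩, ⟨10, 8⟩), (⟨6, 3⟩, ⟨6, 6⟩), (⟨5, 3⟩, ⟨7, 5⟩), (⟨0, 3⟩, ⟨10, 4⟩),
    (⟨4, 4⟩, ⟨6, 2⟩), (⟨4, 0⟩, ⟨6, 5⟩), (⟨4, 2⟩, ⟨6, 1⟩)]
  h := ⟨12, 11⟩
  s0 := 4
  cert := [
    (⟨0, 1⟩, .core), (⟨0, 2⟩, .core), (⟨0, 3⟩, .s0 (⟨0, 3⟩, ⟨10, 4⟩)), (⟨0, 4⟩, .core),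
    (⟨0, 5⟩, .core), (⟨0, 6⟩, .core), (⟨2, 1⟩, .xx f11_0 f11_1),
    (⟨2, 2⟩, .s0 (⟨2, 2⟩, ⟨10, 8⟩)), (⟨4, -1⟩, .xx f11_0 f11_2),
    (⟨4, 0⟩, .s0 (⟨4, 0⟩, ⟨6, 5⟩)), (⟨4, 1⟩, .x1 f11_0), (⟨4, 2⟩, .s0 (⟨4, 2⟩, ⟨6, 1⟩)),
    (⟨4, 3⟩, .x1 f11_0), (⟨4, 4⟩, .s0 (⟨4, 4⟩, ⟨6, 2⟩)), (⟨5, 2⟩, .yr f11_2),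
    (⟨5, 3⟩, .s0 (⟨5, 3⟩, ⟨7, 5⟩)), (⟨6, 0⟩, .yr f11_1), (⟨6, 1⟩, .s1 (⟨4, 2⟩, ⟨6, 1⟩)),
    (⟨6, 2⟩, .s1 (⟨4, 4⟩, ⟨6, 2⟩)), (⟨6, 3⟩, .s0 (⟨6, 3⟩, ⟨6, 6⟩)),
    (⟨6, 4⟩, .s0 (⟨6, 4⟩, ⟨6, 7⟩)), (⟨6, 5⟩, .s1 (⟨4, 0⟩, ⟨6, 5⟩)),
    (⟨6, 6⟩, .s1 (⟨6, 3⟩, ⟨6, 6⟩)), (⟨6, 7⟩, .s1 (⟨6, 4⟩, ⟨6, 7⟩)), (⟨7, 4⟩, .zr f11_1),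
    (⟨7, 5⟩, .s1 (⟨5, 3⟩, ⟨7, 5⟩)), (⟨8, 3⟩, .zr f11_2), (⟨10, 2⟩, .yr f11_0),
    (⟨10, 3⟩, .s2 (⟨4, 2⟩, ⟨6, 1⟩)), (⟨10, 4⟩, .s1 (⟨0, 3⟩, ⟨10, 4⟩)),
    (⟨10, 5⟩, .s2 (⟨4, 0⟩, ⟨6, 5⟩)), (⟨10, 6⟩, .s2 (⟨4, 4⟩, ⟨6, 2⟩)),
    (⟨10, 7⟩, .s2 (⟨0, 3⟩, ⟨10, 4⟩)), (⟨10, 8⟩, .s1 (⟨2, 2⟩, ⟨10, 8⟩)), (⟨12, 7⟩, .zr f11_0),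
    (⟨12, 8⟩, .s2 (⟨5, 3⟩, ⟨7, 5⟩)), (⟨12, 9⟩, .s2 (⟨6, 3⟩, ⟨6, 6⟩)),
    (⟨12, 10⟩, .s2 (⟨2, 2⟩, ⟨10, 8⟩)), (⟨12, 11⟩, .s2 (⟨6, 4⟩, ⟨6, 7⟩))]

theorem pat11_ok : pat11.ok = true := by decide +kernel

end Pool.Agent.helper9.SV
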