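import Pool.Agent.helper9.SV.Defs

/-!
# Cores and pairs of zero-sum triangles
-/

namespace Pool.Agent.helper9.SV

/-- the three elements of a triple `x, y, x + y` -/
def els (p : ℤ × ℤ) : List ℤ := [p.1, p.2, p.1 + p.2]

/-- the two zero-sum triangles of a triple -/
def prs (p : ℤ × ℤ) : List (List ℤ) := [[p.1, p.2, -(p.1 + p.2)], [-p.1, -p.2, p.1 + p.2]]

/-- the numbers `1, …, h` without `A` are partitioned into `n` triples `x, y, x + y` -/
def TriPart (A : List ℤ) (h n : ℕ) : Prop :=
  ∃ T : List (ℤ × ℤ), T.length = n ∧ A.length + 3 * n = h ∧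
    ∀ y : ℤ, 1 ≤ y → y ≤ h → y ∈ A ∨ ∃ p ∈ T, y = p.1 ∨ y = p.2 ∨ y = p.1 + p.2

theorem length_flatMap_els (T : List (ℤ × ℤ)) : (T.flatMap els).length = 3 * T.length := by
  induction T with
  | nil => rfl
  | cons p T ih =>
    rw [List.flatMap_cons, List.length_append, ih, List.length_cons]
    simp [els]
    ring

theorem mem_flatMap_els {T : List (ℤ × ℤ)} {y : ℤ} :
    y ∈ T.flatMap els ↔ ∃ p ∈ T, y = p.1 ∨ y = p.2 ∨ y = p.1 + p.2 := by
  rw [List.mem_flatMap]
  simp [els]

theorem key1 (a b c a' b' c' : Multiset ℤ) :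
    a + (b + (c' + (a' + (b' + c)))) = a + (b + c) + (a' + (b' + c')) := by
  abel

theorem key2 (a b c a' b' c' : Multiset ℤ) :
    c + (a' + (b' + (c' + (a + b)))) = a + (b + c) + (a' + (b' + c')) := by
  abel

theorem flatten_prs (T : List (ℤ × ℤ)) : (((T.flatMap prs).flatten : List ℤ) : Multiset ℤ) =
    ((T.flatMap els : List ℤ) : Multiset ℤ) +
      ((T.flatMap els : List ℤ) : Multiset ℤ).map Neg.neg := by
  induction T with
  | nil => rfl
  | cons p T ih =>
    rw [List.flatMap_cons, List.flatMap_cons, List.flatten_append, ← Multiset.coe_add, ih,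
      ← Multiset.coe_add, Multiset.map_add]
    have h : (((prs p).flatten : List ℤ) : Multiset ℤ) =
        ((els p : List ℤ) : Multiset ℤ) + ((els p : List ℤ) : Multiset ℤ).map Neg.neg := by
      simp only [prs, els, List.flatten_cons, List.flatten_nil, List.append_nil, List.cons_append,
        List.nil_append, ← Multiset.cons_coe, Multiset.coe_nil, ← Multiset.singleton_add,
        add_zero, Multiset.map_add, Multiset.map_singleton]
      exact key1 _ _ _ _ _ _
    rw [h]
    abel

theorem flatten_sums_prs (T : List (ℤ × ℤ)) :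
    ((((T.flatMap prs).map cycSums).flatten : List ℤ) : Multiset ℤ) =
    ((T.flatMap els : List ℤ) : Multiset ℤ) +
      ((T.flatMap els : List ℤ) : Multiset ℤ).map Neg.neg := by
  induction T with
  | nil => rfl
  | cons p T ih =>
    rw [List.flatMap_cons, List.flatMap_cons, List.map_append, List.flatten_append,
      ← Multiset.coe_add, ih, ← Multiset.coe_add, Multiset.map_add]
    have h : ((((prs p).map cycSums).flatten : List ℤ) : Multiset ℤ) =
        ((els p : List ℤ) : Multiset ℤ) + ((els p : List ℤ) : Multiset ℤ).map Neg.neg := by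
      have e1 : p.2 + -(p.1 + p.2) = -p.1 := by ring
      have e2 : -(p.1 + p.2) + p.1 = -p.2 := by ring
      have e3 : -p.1 + -p.2 = -(p.1 + p.2) := by ring
      have e4 : -p.2 + (p.1 + p.2) = p.1 := by ring
      have e5 : p.1 + p.2 + -p.1 = p.2 := by ring
      simp only [prs, els, cycSums, List.map_cons, List.map_nil, List.cons_append,
        List.nil_append, List.zipWith_cons_cons, List.zipWith_nil_left, List.flatten_cons,
        List.flatten_nil, List.append_nil, e1, e2, e3, e4, e5,
        ← Multiset.cons_coe, Multiset.coe_nil, ← Multiset.singleton_add, add_zero,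
        Multiset.map_add, Multiset.map_singleton]
      exact key2 _ _ _ _ _ _
    rw [h]
    abel

theorem length_prs (T : List (ℤ × ℤ)) :
    (((T.flatMap prs).map List.length : List ℕ) : Multiset ℕ) =
      Multiset.replicate (2 * T.length) 3 := by
  induction T with
  | nil => rfl
  | cons p T ih =>
    rw [List.flatMap_cons, List.map_append, ← Multiset.coe_add, ih, List.length_cons,
      show 2 * (T.length + 1) = 2 + 2 * T.length by ring, Multiset.replicate_add]
    rfl

/-- a list of the right length containing `-h, …, h` -/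
theorem eq_Icc_of_surj {l : List ℤ} {h : ℕ} (hl : l.length = 2 * h + 1)
    (hs : ∀ y : ℤ, -(h : ℤ) ≤ y → y ≤ h → y ∈ l) :
    (l : Multiset ℤ) = (Finset.Icc (-(h : ℤ)) h).val := by
  symm
  apply Multiset.eq_of_le_of_card_le
  · rw [Multiset.le_iff_subset (Finset.Icc (-(h : ℤ)) h).nodup]
    intro y hy
    rw [Finset.mem_val, Finset.mem_Icc] at hy
    exact hs y hy.1 hy.2
  · rw [Multiset.coe_card, hl]
    have : (Finset.Icc (-(h : ℤ)) h).val.card = 2 * h + 1 := by
      rw [Finset.card_val, Int.card_Icc]
      omega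
    omega

theorem good_of_triPart {A : List ℤ} {h n : ℕ} (hT : TriPart A h n) {M : Multiset ℕ}
    (cs : List (List ℤ)) (hlen : ((cs.map List.length : List ℕ) : Multiset ℕ) = M)
    (hlab : ((cs.flatten : List ℤ) : Multiset ℤ) =
      0 ::ₘ ((A : Multiset ℤ) + (A : Multiset ℤ).map Neg.neg))
    (hsum : (((cs.map cycSums).flatten : List ℤ) : Multiset ℤ) =
      0 ::ₘ ((A : Multiset ℤ) + (A : Multiset ℤ).map Neg.neg)) :
    Good (Multiset.replicate (2 * n) 3 + M) := by
  obtain ⟨T, hTn, hAn, hcov⟩ := hT
  have hIcc : (0 : ℤ) ::ₘ (((A ++ T.flatMap els : List ℤ) : Multiset ℤ) +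
      ((A ++ T.flatMap els : List ℤ) : Multiset ℤ).map Neg.neg) =
      (Finset.Icc (-(h : ℤ)) h).val := by
    have h1 : (0 : ℤ) ::ₘ (((A ++ T.flatMap els : List ℤ) : Multiset ℤ) +
        ((A ++ T.flatMap els : List ℤ) : Multiset ℤ).map Neg.neg) =
        ((0 :: ((A ++ T.flatMap els) ++ (A ++ T.flatMap els).map Neg.neg) : List ℤ) :
          Multiset ℤ) := rfl
    rw [h1]
    apply eq_Icc_of_surj
    · simp only [List.length_cons, List.length_append, List.length_map, length_flatMap_els]
      omega
    · intro y hy1 hy2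
      have hpos : ∀ z : ℤ, 1 ≤ z → z ≤ h → z ∈ A ++ T.flatMap els := by
        intro z hz1 hz2
        rw [List.mem_append, mem_flatMap_els]
        exact hcov z hz1 hz2
      rcases lt_trichotomy y 0 with hy | hy | hy
      · refine List.mem_cons_of_mem _ (List.mem_append_right _ ?_)
        rw [List.mem_map]
        exact ⟨-y, hpos _ (by omega) (by omega), by ring⟩
      · rw [hy]
        exact List.mem_cons_self
      · exact List.mem_cons_of_mem _ (List.mem_append_left _ (hpos _ (by omega) (by omega)))
  have hlab' : (((cs ++ T.flatMap prs).flatten : List ℤ) : Multiset ℤ) =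
      (Finset.Icc (-(h : ℤ)) h).val := by
    rw [← hIcc, List.flatten_append, ← Multiset.coe_add, hlab, flatten_prs, ← Multiset.coe_add,
      Multiset.map_add, Multiset.cons_add]
    congr 1
    abel
  have hsum' : ((((cs ++ T.flatMap prs).map cycSums).flatten : List ℤ) : Multiset ℤ) =
      (Finset.Icc (-(h : ℤ)) h).val := by
    rw [← hIcc, List.map_append, List.flatten_append, ← Multiset.coe_add, hsum, flatten_sums_prs,
      ← Multiset.coe_add, Multiset.map_add, Multiset.cons_add]
    congr 1
    abel
  have hlen' : (((cs ++ T.flatMap prs).map List.length : List ℕ) : Multiset ℕ) =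
      Multiset.replicate (2 * n) 3 + M := by
    rw [List.map_append, ← Multiset.coe_add, hlen, length_prs, hTn, add_comm]
  refine ⟨h, ?_, cs ++ T.flatMap prs, hlen', hlab', hsum'⟩
  have h2 := congrArg Multiset.card hlab'
  rw [Multiset.coe_card, List.length_flatten] at h2
  rw [← hlen', Multiset.sum_coe, h2, Finset.card_val, Int.card_Icc]
  omega

end Pool.Agent.helper9.SV
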